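import Mathlib
import Pool.Agent.Helper5.Pg.Defs

set_option autoImplicit false

open MeasureTheory Set Filter Topology

namespace Pool.Agent.Helper5.PG

/-- the unit step -/
noncomputable def uu (t : ℝ) : ℂ := if 0 < t then 1 else 0

/-- `e^{zt}` on `t > 0` -/
noncomputable def ee (z : ℂ) (t : ℝ) : ℂ := if 0 < t then Complex.exp (z * t) else 0

/-- Laplace transform -/
noncomputable def lap (g : ℝ → ℂ) (z : ℂ) : ℂ :=
  ∫ r in Ioi (0:ℝ), Complex.exp (-(z * r)) * g r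

/-- tail operator -/
noncomputable def JJ (z : ℂ) (g : ℝ → ℂ) (t : ℝ) : ℂ :=
  if 0 < t then -∫ r in Ioi (0:ℝ), Complex.exp (-(z * r)) * g (t + r) else 0

/-- measurable, zero on `t ≤ 0`, `‖f t‖ ≤ C e^{mt}` for `t > 0` -/
structure EBd (C m : ℝ) (f : ℝ → ℂ) : Prop where
  meas : Measurable f
  zero : ∀ t : ℝ, t ≤ 0 → f t = 0
  bd : ∀ t : ℝ, 0 < t → ‖f t‖ ≤ C * Real.exp (m * t)

/-- `Φ` is a linear functional of norm `≤ 1` on `L^1(w)` -/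
structure IsFun (w : ℝ → ℝ) (Φ : (ℝ → ℂ) → ℂ) : Prop where
  add : ∀ g h : ℝ → ℂ, InL1 w g → InL1 w h → Φ (g + h) = Φ g + Φ h
  smul : ∀ (a : ℂ) (g : ℝ → ℂ), InL1 w g → Φ (a • g) = a * Φ g
  bd : ∀ g : ℝ → ℂ, InL1 w g → ‖Φ g‖ ≤ ∫ t in Ioi (0:ℝ), ‖g t‖ * w t


end Pool.Agent.Helper5.PG
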