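import Mathlib
import Pool.Agent.Helper5.Pe.Defs
import Pool.Agent.Helper5.Pg.RadicalBound

set_option autoImplicit false
open MeasureTheory Set Filter Topology

namespace Pool.Agent.Helper5.PG

theorem inl1_pw (w : ℝ → ℝ) (hw : IsWeight w) (hr : IsRadical w) (a : ℝ) (ha : 0 < a) (c : ℂ) :
    InL1 w (pw a c) := by
  obtain ⟨K, hK⟩ := radical_bound w hw hr (1 + c.re)
  unfold InL1
  have hG : IntegrableOn (fun t : ℝ => K * (Real.exp (-t) * t ^ (a - 1))) (Ioi 0) :=
    (Real.GammaIntegral_convergent ha).const_mul K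
  have hcont : ContinuousOn (fun t : ℝ => pw a c t * (w t : ℂ)) (Ioi 0) := by
    unfold pw
    refine ContinuousOn.mul (ContinuousOn.mul ?_ ?_) ?_
    · refine Complex.continuous_ofReal.comp_continuousOn ?_
      intro t ht
      exact (Real.continuousAt_rpow_const t (a - 1) (Or.inl (ne_of_gt ht))).continuousWithinAt
    · fun_prop
    · exact Complex.continuous_ofReal.comp_continuousOn (hw.cont.mono Ioi_subset_Ici_self)
  refine Integrable.mono' hG (hcont.aestronglyMeasurable measurableSet_Ioi) ?_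
  refine (ae_restrict_iff' measurableSet_Ioi).mpr (Eventually.of_forall fun t ht => ?_)
  have ht0 : (0:ℝ) < t := ht
  have hw0 := hw.pos t ht0.le
  have h1 : ‖pw a c t * (w t : ℂ)‖ = t ^ (a - 1) * Real.exp (c.re * t) * w t := by
    unfold pw
    rw [norm_mul, norm_mul, Complex.norm_real, Complex.norm_real, Complex.norm_exp,
      Real.norm_of_nonneg (Real.rpow_nonneg ht0.le _), Real.norm_of_nonneg hw0.le]
    congr 3
    simp
  rw [h1]
  have h2 := hK t ht0.le
  have h3 : 0 ≤ t ^ (a - 1) * Real.exp (c.re * t) :=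
    mul_nonneg (Real.rpow_nonneg ht0.le _) (Real.exp_pos _).le
  refine (mul_le_mul_of_nonneg_left h2 h3).trans (le_of_eq ?_)
  have h4 : Real.exp (c.re * t) * Real.exp (-((1 + c.re) * t)) = Real.exp (-t) := by
    rw [← Real.exp_add]
    congr 1
    ring
  calc t ^ (a - 1) * Real.exp (c.re * t) * (K * Real.exp (-((1 + c.re) * t)))
      = K * ((Real.exp (c.re * t) * Real.exp (-((1 + c.re) * t))) * t ^ (a - 1)) := by ring
    _ = K * (Real.exp (-t) * t ^ (a - 1)) := by rw [h4]

end Pool.Agent.Helper5.PG
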