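import Mathlib
import Pool.Agent.Helper5.Pe.Defs

set_option autoImplicit false
open MeasureTheory Set Filter Topology

namespace Pool.Agent.Helper5.PG

private theorem gen_congr_cpow (f g : ℝ → ℂ) (h : ∀ t : ℝ, 0 < t → f t = g t) (k : ℕ) :
    ∀ t : ℝ, 0 < t → cpow f k t = cpow g k t := by
  induction k with
  | zero => exact h
  | succ k ih =>
    intro t ht
    simp only [cpow, cv]
    rw [intervalIntegral.integral_of_le ht.le, intervalIntegral.integral_of_le ht.le,
      integral_Ioc_eq_integral_Ioo, integral_Ioc_eq_integral_Ioo]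
    apply setIntegral_congr_fun measurableSet_Ioo
    intro s hs
    simp only
    rw [h (t - s) (by linarith [hs.2]), ih s hs.1]

theorem gen_congr (w : ℝ → ℝ) (hw : IsWeight w) (f g : ℝ → ℂ) (h : ∀ t : ℝ, 0 < t → f t = g t)
    (hf : IsPolyGen w f) : IsPolyGen w g := by
  obtain ⟨h1, h2⟩ := hf
  refine ⟨?_, ?_⟩
  · refine IntegrableOn.congr_fun h1 ?_ measurableSet_Ioi
    intro t ht
    simp only
    rw [h t ht]
  · intro k hk ε hε
    obtain ⟨n, c, hc⟩ := h2 k hk ε hε
    refine ⟨n, c, ?_⟩
    have : ∫⁻ t in Ioi (0:ℝ), ENNReal.ofReal (‖k t - ∑ k ∈ Finset.range n, c k * cpow g k t‖ * w t)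
      = ∫⁻ t in Ioi (0:ℝ), ENNReal.ofReal
          (‖k t - ∑ k ∈ Finset.range n, c k * cpow f k t‖ * w t) := by
      apply setLIntegral_congr_fun measurableSet_Ioi
      intro t ht
      simp only
      congr 4
      apply Finset.sum_congr rfl
      intro i _
      rw [gen_congr_cpow f g h i t ht]
    rw [this]
    exact hc

end Pool.Agent.Helper5.PG
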