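import Mathlib
import Pool.Agent.Helper5.Pe.Defs

set_option autoImplicit false
open MeasureTheory Set Filter Topology

namespace Pool.Agent.Helper5.PG

theorem ee_conv_kernel (C m : ℝ) (hC : 0 ≤ C) (g : ℝ → ℂ) (hg : EBd C m g) (z : ℂ) (t : ℝ)
    (ht : 0 ≤ t) (r : ℝ) (hr : 0 < r) :
    ‖Complex.exp (-(z * r)) * g (t + r)‖ ≤ C * Real.exp (m * t) * Real.exp (-(z.re - m) * r) := by
  rw [norm_mul, Complex.norm_exp]
  have h1 : (-(z * (r:ℂ))).re = -(z.re * r) := by simp
  rw [h1]
  have h2 := hg.bd (t + r) (by linarith)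
  calc Real.exp (-(z.re * r)) * ‖g (t + r)‖ ≤ Real.exp (-(z.re * r)) * (C * Real.exp (m * (t + r))) :=
        mul_le_mul_of_nonneg_left h2 (Real.exp_pos _).le
    _ = C * Real.exp (m * t) * Real.exp (-(z.re - m) * r) := by
        rw [show Real.exp (-(z.re * r)) * (C * Real.exp (m * (t + r))) =
          C * (Real.exp (-(z.re * r)) * Real.exp (m * (t + r))) by ring, mul_assoc, ← Real.exp_add,
          ← Real.exp_add]
        congr 2
        ring

theorem ee_conv_dom (C m : ℝ) (z : ℂ) (hz : m < z.re) (t : ℝ) :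
    IntegrableOn (fun r : ℝ => C * Real.exp (m * t) * Real.exp (-(z.re - m) * r)) (Ioi 0) :=
  (integrableOn_exp_mul_Ioi (by linarith) 0).const_mul _

theorem ee_conv_meas (g : ℝ → ℂ) (hg : Measurable g) (z : ℂ) (t : ℝ) :
    Measurable (fun r : ℝ => Complex.exp (-(z * r)) * g (t + r)) := by
  refine Measurable.mul ?_ (hg.comp (measurable_const.add measurable_id))
  fun_prop

theorem ee_conv_int (C m : ℝ) (hC : 0 ≤ C) (g : ℝ → ℂ) (hg : EBd C m g) (z : ℂ) (hz : m < z.re)
    (t : ℝ) (ht : 0 ≤ t) :
    IntegrableOn (fun r : ℝ => Complex.exp (-(z * r)) * g (t + r)) (Ioi 0) := by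
  refine Integrable.mono' (ee_conv_dom C m z hz t) ?_ ?_
  · exact (ee_conv_meas g hg.meas z t).aestronglyMeasurable
  · refine (ae_restrict_iff' measurableSet_Ioi).mpr (Filter.Eventually.of_forall fun r hr => ?_)
    exact ee_conv_kernel C m hC g hg z t ht r hr

theorem ee_conv_bd (C m : ℝ) (hC : 0 ≤ C) (g : ℝ → ℂ) (hg : EBd C m g) (z : ℂ) (hz : m < z.re)
    (t : ℝ) (ht : 0 ≤ t) :
    ‖∫ r in Ioi (0:ℝ), Complex.exp (-(z * r)) * g (t + r)‖ ≤ C / (z.re - m) * Real.exp (m * t) := by
  have h1 := norm_integral_le_of_norm_le (ee_conv_dom C m z hz t)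
    (f := fun r : ℝ => Complex.exp (-(z * r)) * g (t + r)) (by
      refine (ae_restrict_iff' measurableSet_Ioi).mpr (Filter.Eventually.of_forall fun r hr => ?_)
      exact ee_conv_kernel C m hC g hg z t ht r hr)
  refine h1.trans (le_of_eq ?_)
  rw [integral_const_mul, integral_exp_mul_Ioi (by linarith)]
  have : z.re - m ≠ 0 := by linarith
  rw [mul_zero, Real.exp_zero, neg_div_neg_eq]
  field_simp

theorem ee_conv_shift (F : ℝ → ℂ) (t : ℝ) :
    ∫ r in Ioi (0:ℝ), F (r + t) = ∫ s in Ioi t, F s := by
  have h := (measurePreserving_add_right (volume : Measure ℝ) t).setIntegral_preimage_emb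
    (MeasurableEquiv.addRight t).measurableEmbedding F (Ioi t)
  rw [← h]
  congr 1
  congr 1
  ext x
  simp

theorem ee_conv (C m : ℝ) (hC : 0 ≤ C) (g : ℝ → ℂ) (hg : EBd C m g) (z : ℂ) (hz : m < z.re) :
    EBd (C / (z.re - m)) m (JJ z g) ∧ ‖lap g z‖ ≤ C / (z.re - m) ∧
    cv (ee z) g = lap g z • ee z + JJ z g := by
  have hg0 := hg.meas
  refine ⟨⟨?_, ?_, ?_⟩, ?_, ?_⟩
  · unfold JJ
    refine Measurable.ite measurableSet_Ioi ?_ measurable_const
    refine Measurable.neg ?_
    have h : StronglyMeasurable (fun p : ℝ × ℝ => Complex.exp (-(z * (p.2:ℂ))) * g (p.1 + p.2)) := by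
      apply Measurable.stronglyMeasurable
      refine Measurable.mul ?_ (hg0.comp (measurable_fst.add measurable_snd))
      fun_prop
    exact (h.integral_prod_right' (ν := volume.restrict (Ioi (0:ℝ)))).measurable
  · intro t ht
    unfold JJ
    rw [if_neg (not_lt.mpr ht)]
  · intro t ht
    unfold JJ
    rw [if_pos ht, norm_neg]
    exact ee_conv_bd C m hC g hg z hz t ht.le
  · have h := ee_conv_bd C m hC g hg z hz 0 le_rfl
    unfold lap
    simpa using h
  · funext t
    rw [Pi.add_apply, Pi.smul_apply, smul_eq_mul]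
    rcases le_or_gt t 0 with ht | ht
    · have h1 : cv (ee z) g t = 0 := by
        unfold cv
        rw [intervalIntegral.integral_symm, intervalIntegral.integral_of_le ht]
        rw [setIntegral_congr_fun (g := fun _ => (0:ℂ)) measurableSet_Ioc]
        · simp
        · intro s hs
          simp only
          rw [hg.zero s hs.2, mul_zero]
      rw [h1]
      unfold ee JJ
      rw [if_neg (not_lt.mpr ht), if_neg (not_lt.mpr ht)]
      simp
    · have hi := ee_conv_int C m hC g hg z hz 0 le_rfl
      simp only [zero_add] at hi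
      have h1 : cv (ee z) g t = Complex.exp (z * t) *
          ∫ s in Ioc 0 t, Complex.exp (-(z * s)) * g s := by
        unfold cv
        rw [intervalIntegral.integral_of_le ht.le, integral_Ioc_eq_integral_Ioo,
          integral_Ioc_eq_integral_Ioo, ← integral_const_mul]
        refine setIntegral_congr_fun measurableSet_Ioo ?_
        intro s hs
        simp only [ee]
        rw [if_pos (by linarith [hs.2]), ← mul_assoc, ← Complex.exp_add]
        congr 2
        push_cast
        ring
      have h2 : lap g z = (∫ s in Ioc 0 t, Complex.exp (-(z * s)) * g s) +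
          ∫ s in Ioi t, Complex.exp (-(z * s)) * g s := by
        unfold lap
        rw [← Ioc_union_Ioi_eq_Ioi ht.le, setIntegral_union]
        · exact Set.disjoint_left.mpr fun r hr hr' => absurd hr.2 (not_le.mpr hr')
        · exact measurableSet_Ioi
        · exact hi.mono_set Ioc_subset_Ioi_self
        · exact hi.mono_set (Ioi_subset_Ioi ht.le)
      have h3 : ∫ s in Ioi t, Complex.exp (-(z * s)) * g s = Complex.exp (-(z * t)) *
          ∫ r in Ioi (0:ℝ), Complex.exp (-(z * r)) * g (t + r) := by
        rw [← ee_conv_shift (fun s : ℝ => Complex.exp (-(z * s)) * g s) t, ← integral_const_mul]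
        refine integral_congr_ae (Filter.Eventually.of_forall fun r => ?_)
        simp only
        rw [← mul_assoc, ← Complex.exp_add, add_comm t r]
        congr 2
        push_cast
        ring
      have h4 : ee z t = Complex.exp (z * t) := by
        unfold ee
        rw [if_pos ht]
      have h5 : JJ z g t = - ∫ r in Ioi (0:ℝ), Complex.exp (-(z * r)) * g (t + r) := by
        unfold JJ
        rw [if_pos ht]
      have h6 : Complex.exp (-(z * t)) * Complex.exp (z * t) = 1 := by
        rw [← Complex.exp_add]; simp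
      rw [h1, h2, h3, h4, h5]
      linear_combination (-∫ r in Ioi (0:ℝ), Complex.exp (-(z * r)) * g (t + r)) * h6

end Pool.Agent.Helper5.PG
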