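import Mathlib
import Pool.Agent.Helper5.Pe.Defs

set_option autoImplicit false
open MeasureTheory Set Filter Topology

namespace Pool.Agent.Helper5.PG

theorem EBd_glob {C m : ℝ} {f : ℝ → ℂ} (hf : EBd C m f) (u : ℝ) :
    ‖f u‖ ≤ |C| * Real.exp (|m| * |u|) := by
  rcases le_or_gt u 0 with h | h
  · rw [hf.zero u h, norm_zero]
    positivity
  · refine (hf.bd u h).trans ?_
    refine mul_le_mul (le_abs_self C) ?_ (Real.exp_pos _).le (abs_nonneg C)
    apply Real.exp_le_exp.2
    rw [abs_of_pos h]
    exact mul_le_mul_of_nonneg_right (le_abs_self m) h.le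

theorem EBd_int {C m : ℝ} {f g : ℝ → ℂ} (hf : EBd C m f) (hg : EBd C m g) (t : ℝ) :
    IntervalIntegrable (fun s => f (t - s) * g s) volume 0 t := by
  rw [intervalIntegrable_iff]
  refine Measure.integrableOn_of_bounded (M := (|C| * Real.exp (|m| * |t|)) * (|C| * Real.exp (|m| * |t|)))
    ?_ ?_ ?_
  · rw [Set.uIoc, Real.volume_Ioc]
    exact ENNReal.ofReal_ne_top
  · apply Measurable.aestronglyMeasurable
    exact (hf.meas.comp (measurable_const.sub measurable_id)).mul hg.meas
  · rw [ae_restrict_iff' measurableSet_uIoc]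
    refine Filter.Eventually.of_forall ?_
    intro s hs
    have hs' := Set.uIoc_subset_uIcc hs
    have h1 : |s| ≤ |t| := by
      rcases le_total 0 t with h | h
      · rw [Set.uIcc_of_le h] at hs'
        rw [abs_of_nonneg hs'.1, abs_of_nonneg h]
        exact hs'.2
      · rw [Set.uIcc_of_ge h] at hs'
        rw [abs_of_nonpos hs'.2, abs_of_nonpos h]
        linarith [hs'.1]
    have h2 : |t - s| ≤ |t| := by
      rcases le_total 0 t with h | h
      · rw [Set.uIcc_of_le h] at hs'
        rw [abs_of_nonneg (by linarith [hs'.2]), abs_of_nonneg h]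
        linarith [hs'.1]
      · rw [Set.uIcc_of_ge h] at hs'
        rw [abs_of_nonpos (by linarith [hs'.1]), abs_of_nonpos h]
        linarith [hs'.2]
    rw [norm_mul]
    refine mul_le_mul ((EBd_glob hf _).trans ?_) ((EBd_glob hg _).trans ?_) (norm_nonneg _) (by positivity)
    · gcongr
    · gcongr

theorem cv_add (C m : ℝ) (f g h : ℝ → ℂ) (hf : EBd C m f) (hg : EBd C m g) (hh : EBd C m h) :
    cv f (g + h) = cv f g + cv f h := by
  funext t
  rw [Pi.add_apply]
  unfold cv
  rw [← intervalIntegral.integral_add (EBd_int hf hg t) (EBd_int hf hh t)]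
  apply intervalIntegral.integral_congr
  intro s _
  simp only [Pi.add_apply]
  ring

end Pool.Agent.Helper5.PG
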