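import Mathlib
import Pool.Agent.Helper5.Pe.Defs

set_option autoImplicit false
open MeasureTheory Set Filter Topology

namespace Pool.Agent.Helper5.PG

theorem cv_ebd (C D m : ℝ) (hC : 0 ≤ C) (hD : 0 ≤ D) (f g : ℝ → ℂ) (hf : EBd C m f)
    (hg : EBd D m g) :
    (∀ t : ℝ, 0 < t → ‖cv f g t‖ ≤ C * D * t * Real.exp (m * t)) ∧
    EBd (C * D) (m + 1) (cv f g) := by
  have hprod : ∀ t s : ℝ, 0 < t → s ∈ Set.uIoc 0 t → ‖f (t - s) * g s‖ ≤ C * D * Real.exp (m * t) := by
    intro t s ht hs
    rw [uIoc_of_le ht.le] at hs
    rcases eq_or_lt_of_le hs.2 with h | h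
    · rw [h, sub_self, hf.zero 0 le_rfl, zero_mul, norm_zero]
      positivity
    · have h1 := hf.bd (t - s) (by linarith)
      have h2 := hg.bd s hs.1
      rw [norm_mul]
      calc ‖f (t - s)‖ * ‖g s‖ ≤ (C * Real.exp (m * (t - s))) * (D * Real.exp (m * s)) :=
            mul_le_mul h1 h2 (norm_nonneg _) (by positivity)
        _ = C * D * (Real.exp (m * (t - s)) * Real.exp (m * s)) := by ring
        _ = C * D * Real.exp (m * t) := by
            rw [← Real.exp_add]
            congr 2
            ring
  have hbd : ∀ t : ℝ, 0 < t → ‖cv f g t‖ ≤ C * D * t * Real.exp (m * t) := by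
    intro t ht
    have h := intervalIntegral.norm_integral_le_of_norm_le_const (fun s hs => hprod t s ht hs)
    rw [sub_zero, abs_of_pos ht] at h
    unfold cv
    refine h.trans (le_of_eq ?_)
    ring
  have hzero : ∀ t : ℝ, t ≤ 0 → cv f g t = 0 := by
    intro t ht
    unfold cv
    rw [intervalIntegral.integral_zero_ae]
    refine Eventually.of_forall fun s hs => ?_
    rw [uIoc_of_ge ht] at hs
    rw [hg.zero s hs.2, mul_zero]
  refine ⟨hbd, ?_, hzero, ?_⟩
  · have e : cv f g = fun t => ∫ s, f (t - s) * g s := by
      funext t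
      rcases le_or_gt t 0 with ht | ht
      · rw [hzero t ht]
        have : (fun s => f (t - s) * g s) = fun _ => 0 := by
          funext s
          rcases le_or_gt s 0 with hs | hs
          · rw [hg.zero s hs, mul_zero]
          · rw [hf.zero (t - s) (by linarith), zero_mul]
        rw [this, integral_zero]
      · unfold cv
        rw [intervalIntegral.integral_of_le ht.le]
        refine setIntegral_eq_integral_of_forall_compl_eq_zero fun s hs => ?_
        rcases le_or_gt s 0 with hs0 | hs0
        · rw [hg.zero s hs0, mul_zero]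
        · have : t < s := by
            by_contra hle
            exact hs ⟨hs0, not_lt.1 hle⟩
          rw [hf.zero (t - s) (by linarith), zero_mul]
    rw [e]
    have hm : StronglyMeasurable (Function.uncurry (fun t s : ℝ => f (t - s) * g s)) := by
      refine Measurable.stronglyMeasurable ?_
      exact (hf.meas.comp (measurable_fst.sub measurable_snd)).mul (hg.meas.comp measurable_snd)
    exact hm.integral_prod_right.measurable
  · intro t ht
    refine (hbd t ht).trans ?_
    have h1 : t ≤ Real.exp t := by linarith [Real.add_one_le_exp t]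
    have h2 : Real.exp ((m + 1) * t) = Real.exp t * Real.exp (m * t) := by
      rw [← Real.exp_add]
      congr 1
      ring
    rw [h2]
    calc C * D * t * Real.exp (m * t) ≤ C * D * Real.exp t * Real.exp (m * t) := by gcongr
      _ = C * D * (Real.exp t * Real.exp (m * t)) := by ring

end Pool.Agent.Helper5.PG
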