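import Mathlib
import Pool.Agent.Helper5.Pe.Defs
import Pool.Agent.Helper5.Pe.CvEbd

set_option autoImplicit false
open MeasureTheory Set Filter Topology

namespace Pool.Agent.Helper5.PG

open scoped Convolution in
theorem cvA_int (C D m m' y : ℝ) (f g : ℝ → ℂ) (hf : EBd C m f) (hg : EBd D m' g) :
    Integrable (fun t => f t * g (y - t)) := by
  have hI : Integrable ((Ioo (0:ℝ) y).indicator
      (fun _ => |C| * Real.exp (|m| * |y|) * (|D| * Real.exp (|m'| * |y|)))) volume := by
    rw [integrable_indicator_iff measurableSet_Ioo]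
    exact integrable_const _
  have hm : Measurable (fun t => f t * g (y - t)) :=
    hf.meas.mul (hg.meas.comp (measurable_const.sub measurable_id))
  refine Integrable.mono' hI hm.aestronglyMeasurable (Eventually.of_forall fun t => ?_)
  by_cases ht : t ∈ Ioo (0:ℝ) y
  · rw [indicator_of_mem ht, norm_mul]
    have h0 : |t| ≤ |y| := by
      rw [abs_of_pos ht.1, abs_of_pos (ht.1.trans ht.2)]; exact ht.2.le
    have h0' : |y - t| ≤ |y| := by
      rw [abs_of_pos (sub_pos.mpr ht.2), abs_of_pos (ht.1.trans ht.2)]; linarith [ht.1]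
    apply mul_le_mul _ _ (norm_nonneg _) (by positivity)
    · refine (hf.bd t ht.1).trans ?_
      apply mul_le_mul (le_abs_self C) _ (Real.exp_pos _).le (abs_nonneg _)
      apply Real.exp_le_exp.mpr
      calc m * t ≤ |m * t| := le_abs_self _
        _ = |m| * |t| := abs_mul _ _
        _ ≤ _ := mul_le_mul_of_nonneg_left h0 (abs_nonneg _)
    · refine (hg.bd (y - t) (sub_pos.mpr ht.2)).trans ?_
      apply mul_le_mul (le_abs_self D) _ (Real.exp_pos _).le (abs_nonneg _)
      apply Real.exp_le_exp.mpr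
      calc m' * (y - t) ≤ |m' * (y - t)| := le_abs_self _
        _ = |m'| * |y - t| := abs_mul _ _
        _ ≤ _ := mul_le_mul_of_nonneg_left h0' (abs_nonneg _)
  · rw [indicator_of_notMem ht]
    rw [mem_Ioo, not_and_or, not_lt, not_lt] at ht
    rcases ht with ht | ht
    · rw [hf.zero t ht, zero_mul, norm_zero]
    · rw [hg.zero (y - t) (by linarith), mul_zero, norm_zero]

theorem cvA_eq (f g : ℝ → ℂ) (hf : ∀ t : ℝ, t ≤ 0 → f t = 0) (hg : ∀ t : ℝ, t ≤ 0 → g t = 0)
    (t : ℝ) : cv f g t = ∫ s : ℝ, g s * f (t - s) := by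
  unfold cv
  rcases le_total 0 t with ht | ht
  · rw [intervalIntegral.integral_of_le ht]
    rw [setIntegral_eq_integral_of_forall_compl_eq_zero]
    · exact integral_congr_ae (Eventually.of_forall fun s => mul_comm _ _)
    · intro s hs
      rw [mem_Ioc, not_and_or, not_lt, not_le] at hs
      rcases hs with hs | hs
      · rw [hg s hs, mul_zero]
      · rw [hf (t - s) (by linarith), zero_mul]
  · have h1 : ∀ s : ℝ, g s * f (t - s) = 0 := by
      intro s
      rcases le_total s 0 with hs | hs
      · rw [hg s hs, zero_mul]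
      · rw [hf (t - s) (by linarith), mul_zero]
    simp_rw [h1, mul_comm (f _) (g _), h1]
    simp

theorem cvA_C {C m : ℝ} {f : ℝ → ℂ} (hf : EBd C m f) : 0 ≤ C := by
  have h1 := (norm_nonneg _).trans (hf.bd 1 one_pos)
  exact nonneg_of_mul_nonneg_left h1 (Real.exp_pos _)

theorem cvA_norm {C m : ℝ} {f : ℝ → ℂ} (hf : EBd C m f) :
    EBd C m (fun t => ((‖f t‖ : ℝ) : ℂ)) := by
  refine ⟨Complex.measurable_ofReal.comp hf.meas.norm, fun t ht => ?_, fun t ht => ?_⟩
  · show ((‖f t‖ : ℝ) : ℂ) = 0
    rw [hf.zero t ht]; simp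
  · show ‖((‖f t‖ : ℝ) : ℂ)‖ ≤ _
    rw [Complex.norm_real, norm_norm]
    exact hf.bd t ht

theorem cv_assoc (C m : ℝ) (f g h : ℝ → ℂ) (hf : EBd C m f) (hg : EBd C m g) (hh : EBd C m h) :
    cv (cv f g) h = cv f (cv g h) := by
  have hC := cvA_C hf
  have hfg := (cv_ebd C C m hC hC f g hf hg).2
  have hgh := (cv_ebd C C m hC hC g h hg hh).2
  have hFG := (cv_ebd C C m hC hC _ _ (cvA_norm hf) (cvA_norm hg)).2
  funext x
  rw [cvA_eq (cv f g) h hfg.zero hh.zero, cvA_eq f (cv g h) hf.zero hgh.zero]
  have e1 : ∀ t, cv f g t = MeasureTheory.convolution g f (ContinuousLinearMap.mul ℝ ℂ) volume t := by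
    intro t
    rw [cvA_eq f g hf.zero hg.zero, MeasureTheory.convolution_def]
    rfl
  have e2 : ∀ t, cv g h t = MeasureTheory.convolution h g (ContinuousLinearMap.mul ℝ ℂ) volume t := by
    intro t
    rw [cvA_eq g h hg.zero hh.zero, MeasureTheory.convolution_def]
    rfl
  have key := MeasureTheory.convolution_assoc (𝕜 := ℝ) (f := h) (g := g) (k := f) (μ := volume) (ν := volume)
    (ContinuousLinearMap.mul ℝ ℂ) (ContinuousLinearMap.mul ℝ ℂ) (ContinuousLinearMap.mul ℝ ℂ)
    (ContinuousLinearMap.mul ℝ ℂ) (fun a b c => by simp [mul_assoc]) (x₀ := x)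
    hh.meas.aestronglyMeasurable hg.meas.aestronglyMeasurable hf.meas.aestronglyMeasurable
    (Eventually.of_forall fun y => by
      show Integrable _ _
      exact cvA_int C C m m y h g hh hg)
    (Eventually.of_forall fun y => by
      show Integrable _ _
      have h1 := cvA_int C C m m y _ _ (cvA_norm hg) (cvA_norm hf)
      have h2 := h1.re
      refine h2.congr (Eventually.of_forall fun t => ?_)
      simp [← Complex.ofReal_mul])
    (by
      show Integrable _ _
      have h1 := cvA_int C (C * C) m (m + 1) x _ _ (cvA_norm hh) hFG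
      have h2 := h1.re
      refine h2.congr (Eventually.of_forall fun t => ?_)
      have h3 : cv (fun t => ((‖f t‖ : ℝ) : ℂ)) (fun t => ((‖g t‖ : ℝ) : ℂ)) (x - t) =
          ((MeasureTheory.convolution (fun x => ‖g x‖) (fun x => ‖f x‖)
            (ContinuousLinearMap.mul ℝ ℝ) volume (x - t) : ℝ) : ℂ) := by
        rw [cvA_eq _ _ (cvA_norm hf).zero (cvA_norm hg).zero, MeasureTheory.convolution_def,
          ← integral_complex_ofReal]
        refine integral_congr_ae (Eventually.of_forall fun s => ?_)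
        simp
      show RCLike.re (((‖h t‖ : ℝ) : ℂ) *
        cv (fun t => ((‖f t‖ : ℝ) : ℂ)) (fun t => ((‖g t‖ : ℝ) : ℂ)) (x - t)) = _
      rw [h3, ← Complex.ofReal_mul]
      simp)
  rw [MeasureTheory.convolution_def, MeasureTheory.convolution_def] at key
  simp only [ContinuousLinearMap.mul_apply'] at key
  simp_rw [e1, e2]
  exact key.symm

end Pool.Agent.Helper5.PG
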