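import Mathlib
import Pool.Agent.Helper5.Pe.Defs

set_option autoImplicit false
open MeasureTheory Set Filter Topology

namespace Pool.Agent.Helper5.PG

theorem cv_comm (f g : ℝ → ℂ) : cv f g = cv g f := by
  funext t
  unfold cv
  have h := intervalIntegral.integral_comp_sub_left (a := 0) (b := t)
    (fun x : ℝ => f x * g (t - x)) t
  simp only [sub_self, sub_zero, sub_sub_cancel] at h
  rw [h]
  refine intervalIntegral.integral_congr fun s _ => ?_
  exact mul_comm _ _

end Pool.Agent.Helper5.PG
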