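import Mathlib
import Pool.Agent.Helper5.Pe.Defs
import Pool.Agent.Helper5.Pe.CvEbd

set_option autoImplicit false
open MeasureTheory Set Filter Topology

namespace Pool.Agent.Helper5.PG

theorem auxV_ebd (C m : ℝ) (hC : 0 ≤ C) (q : ℝ → ℂ) (hq : EBd C m q) (n : ℕ) :
    EBd (C ^ (n + 1)) (m + n) (cpow q n) := by
  induction n with
  | zero =>
    simpa [cpow] using hq
  | succ n ih =>
    have h1 : EBd C (m + n) q := by
      refine ⟨hq.meas, hq.zero, ?_⟩
      intro t ht
      refine (hq.bd t ht).trans ?_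
      refine mul_le_mul_of_nonneg_left ?_ hC
      apply Real.exp_le_exp.2
      have : (0:ℝ) ≤ n := Nat.cast_nonneg n
      nlinarith
    have h2 := (cv_ebd C (C ^ (n + 1)) (m + n) hC (pow_nonneg hC _) q (cpow q n) h1 ih).2
    have h3 : C * C ^ (n + 1) = C ^ (n + 1 + 1) := by ring
    have h4 : m + (n : ℝ) + 1 = m + ((n + 1 : ℕ) : ℝ) := by push_cast; ring
    rw [h3, h4] at h2
    exact h2

theorem auxV_prod (C m D : ℝ) (hC : 0 ≤ C) (q g : ℝ → ℂ) (hq : EBd C m q) (t s : ℝ)
    (hs : s ∈ Ioc 0 t) (hg : ‖g s‖ ≤ D * Real.exp (m * s)) :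
    ‖q (t - s) * g s‖ ≤ C * D * Real.exp (m * t) := by
  have h0 : ‖q (t - s)‖ ≤ C * Real.exp (m * (t - s)) := by
    rcases lt_or_eq_of_le hs.2 with h | h
    · exact hq.bd _ (by linarith)
    · rw [h, sub_self, hq.zero 0 le_rfl]
      simp [hC]
  rw [norm_mul]
  calc ‖q (t - s)‖ * ‖g s‖ ≤ (C * Real.exp (m * (t - s))) * (D * Real.exp (m * s)) :=
        mul_le_mul h0 hg (norm_nonneg _) (by positivity)
    _ = C * D * (Real.exp (m * (t - s)) * Real.exp (m * s)) := by ring
    _ = C * D * Real.exp (m * t) := by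
        rw [← Real.exp_add]; congr 2; ring

theorem auxV_bd (C m : ℝ) (hC : 0 ≤ C) (q : ℝ → ℂ) (hq : EBd C m q) (n : ℕ) :
    ∀ t : ℝ, 0 < t → ‖cpow q n t‖ ≤ (C ^ (n + 1) * (t ^ n / n.factorial)) * Real.exp (m * t) := by
  induction n with
  | zero =>
    intro t ht
    simpa [cpow] using hq.bd t ht
  | succ n ih =>
    intro t ht
    have h1 : ‖∫ s in (0:ℝ)..t, q (t - s) * cpow q n s‖ ≤
        ∫ s in (0:ℝ)..t, (C ^ (n + 2) / n.factorial * Real.exp (m * t)) * s ^ n := by
      refine intervalIntegral.norm_integral_le_of_norm_le ht.le ?_ ?_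
      · refine Filter.Eventually.of_forall ?_
        intro s hs
        refine (auxV_prod C m _ hC q (cpow q n) hq t s hs (ih s hs.1)).trans ?_
        apply le_of_eq
        ring
      · exact (Continuous.intervalIntegrable (by fun_prop) _ _)
    rw [intervalIntegral.integral_const_mul, integral_pow] at h1
    have h2 : cpow q (n + 1) t = ∫ s in (0:ℝ)..t, q (t - s) * cpow q n s := rfl
    rw [h2]
    refine h1.trans (le_of_eq ?_)
    have h3 : ((n + 1).factorial : ℝ) = (n + 1) * n.factorial := by
      rw [Nat.factorial_succ]; push_cast; ring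
    rw [h3]
    have h4 : (n.factorial : ℝ) ≠ 0 := by positivity
    have h5 : ((n : ℝ) + 1) ≠ 0 := by positivity
    have h6 : (0:ℝ) ^ (n + 1) = 0 := by simp
    rw [h6]
    field_simp
    ring

theorem auxV_sum (C m t : ℝ) : HasSum (fun n : ℕ => (C ^ (n + 1) * (t ^ n / n.factorial)) *
    Real.exp (m * t)) (C * Real.exp ((m + C) * t)) := by
  have h := NormedSpace.expSeries_div_hasSum_exp (𝔸 := ℝ) (C * t)
  rw [← Real.exp_eq_exp_ℝ] at h
  have h2 := h.mul_left (C * Real.exp (m * t))
  have e1 : (fun n : ℕ => (C ^ (n + 1) * (t ^ n / n.factorial)) * Real.exp (m * t)) =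
      fun n : ℕ => C * Real.exp (m * t) * ((C * t) ^ n / n.factorial) := by
    funext n
    ring
  have e2 : C * Real.exp ((m + C) * t) = C * Real.exp (m * t) * Real.exp (C * t) := by
    rw [mul_assoc, ← Real.exp_add]
    congr 2
    ring
  rw [e1, e2]
  exact h2

theorem volterra (C m : ℝ) (hC : 0 ≤ C) (q : ℝ → ℂ) (hq : EBd C m q) :
    ∃ Q : ℝ → ℂ, EBd C (m + C) Q ∧ Q + cv q Q = q := by
  have hzero : ∀ n t, t ≤ 0 → cpow q n t = 0 := fun n t ht => (auxV_ebd C m hC q hq n).zero t ht
  have hmeas : ∀ n, Measurable (cpow q n) := fun n => (auxV_ebd C m hC q hq n).meas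
  have hsn : ∀ (n : ℕ) (z : ℂ), ‖(-1 : ℂ) ^ n * z‖ = ‖z‖ := by
    intro n z; simp
  have hsummable : ∀ t : ℝ, Summable (fun n : ℕ => (-1 : ℂ) ^ n * cpow q n t) := by
    intro t
    rcases le_or_gt t 0 with ht | ht
    · have : (fun n : ℕ => (-1 : ℂ) ^ n * cpow q n t) = fun _ => 0 := by
        funext n; rw [hzero n t ht, mul_zero]
      rw [this]; exact summable_zero
    · refine Summable.of_norm_bounded (auxV_sum C m t).summable ?_
      intro n
      rw [hsn]
      exact auxV_bd C m hC q hq n t ht
  set Q : ℝ → ℂ := fun t => ∑' n : ℕ, (-1 : ℂ) ^ n * cpow q n t with hQ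
  have hQz : ∀ t, t ≤ 0 → Q t = 0 := by
    intro t ht
    have : (fun n : ℕ => (-1 : ℂ) ^ n * cpow q n t) = fun _ => 0 := by
      funext n; rw [hzero n t ht, mul_zero]
    simp only [hQ, this, tsum_zero]
  have hQs : ∀ t, HasSum (fun n : ℕ => (-1 : ℂ) ^ n * cpow q n t) (Q t) := fun t =>
    (hsummable t).hasSum
  have hQm : Measurable Q := by
    refine measurable_of_tendsto_metrizable (f := fun N : ℕ => fun t =>
      ∑ n ∈ Finset.range N, (-1 : ℂ) ^ n * cpow q n t) ?_ ?_
    · intro N
      refine Finset.measurable_sum _ ?_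
      intro n _
      exact (hmeas n).const_mul _
    · rw [tendsto_pi_nhds]
      intro t
      exact (hQs t).tendsto_sum_nat
  refine ⟨Q, ⟨hQm, hQz, ?_⟩, ?_⟩
  · intro t ht
    have h1 : ‖∑' n : ℕ, (-1 : ℂ) ^ n * cpow q n t‖ ≤ C * Real.exp ((m + C) * t) := by
      refine tsum_of_norm_bounded (auxV_sum C m t) ?_
      intro n
      rw [hsn]
      exact auxV_bd C m hC q hq n t ht
    exact h1
  · funext t
    rw [Pi.add_apply]
    rcases le_or_gt t 0 with ht | ht
    · rw [hQz t ht, hq.zero t ht, zero_add]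
      unfold cv
      have h1 : ∫ s in (0:ℝ)..t, q (t - s) * Q s = ∫ s in (0:ℝ)..t, (0:ℂ) := by
        refine intervalIntegral.integral_congr ?_
        intro s hs
        rw [uIcc_of_ge ht] at hs
        simp only
        rw [hQz s hs.2, mul_zero]
      rw [h1]
      simp
    · have h1 : HasSum (fun n : ℕ => ∫ s in (0:ℝ)..t, q (t - s) * ((-1 : ℂ) ^ n * cpow q n s))
          (∫ s in (0:ℝ)..t, q (t - s) * Q s) := by
        refine intervalIntegral.hasSum_integral_of_dominated_convergence
          (fun n _ => C * (C ^ (n + 1) * (t ^ n / n.factorial)) * Real.exp (m * t)) ?_ ?_ ?_ ?_ ?_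
        · intro n
          refine Measurable.aestronglyMeasurable ?_
          exact (hq.meas.comp (measurable_const.sub measurable_id)).mul ((hmeas n).const_mul _)
        · intro n
          refine Filter.Eventually.of_forall ?_
          intro s hs
          rw [uIoc_of_le ht.le] at hs
          have h2 : ‖cpow q n s‖ ≤ (C ^ (n + 1) * (t ^ n / n.factorial)) * Real.exp (m * s) := by
            refine (auxV_bd C m hC q hq n s hs.1).trans ?_
            refine mul_le_mul_of_nonneg_right ?_ (Real.exp_nonneg _)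
            refine mul_le_mul_of_nonneg_left ?_ (pow_nonneg hC _)
            refine div_le_div_of_nonneg_right ?_ (by positivity)
            exact pow_le_pow_left₀ hs.1.le hs.2 n
          exact auxV_prod C m (C ^ (n + 1) * (t ^ n / n.factorial)) hC q
            (fun s => (-1 : ℂ) ^ n * cpow q n s) hq t s hs (by simp only [hsn]; exact h2)
        · refine Filter.Eventually.of_forall ?_
          intro s _
          have := (auxV_sum C m t).summable.mul_left C
          refine this.congr ?_
          intro n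
          ring
        · exact intervalIntegrable_const
        · refine Filter.Eventually.of_forall ?_
          intro s _
          exact (hQs s).mul_left _
      have h2 : ∀ n : ℕ, ∫ s in (0:ℝ)..t, q (t - s) * ((-1 : ℂ) ^ n * cpow q n s) =
          (-1 : ℂ) ^ n * cpow q (n + 1) t := by
        intro n
        have h3 : cpow q (n + 1) t = ∫ s in (0:ℝ)..t, q (t - s) * cpow q n s := rfl
        rw [h3, ← intervalIntegral.integral_const_mul]
        congr 1
        funext s
        ring
      simp only [h2] at h1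
      have h4 := (hasSum_nat_add_iff' (f := fun n : ℕ => (-1 : ℂ) ^ n * cpow q n t) 1).2 (hQs t)
      simp only [Finset.range_one, Finset.sum_singleton, pow_zero, one_mul] at h4
      have h5 := h1.neg
      have h6 : (fun n : ℕ => -((-1 : ℂ) ^ n * cpow q (n + 1) t)) =
          fun n : ℕ => (-1 : ℂ) ^ (n + 1) * cpow q (n + 1) t := by
        funext n; ring
      rw [h6] at h5
      have h7 := h4.unique h5
      have h8 : cpow q 0 t = q t := rfl
      rw [h8] at h7
      have h9 : cv q Q t = ∫ s in (0:ℝ)..t, q (t - s) * Q s := rfl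
      rw [h9]
      linear_combination h7

end Pool.Agent.Helper5.PG
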