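import Mathlib
import Pool.Agent.Helper5.Pe.Defs
import Pool.Agent.Helper5.Pe.CvComm
import Pool.Agent.Helper5.Pe.CvEbd
import Pool.Agent.Helper5.Pe.CvAssoc
import Pool.Agent.Helper5.Pe.CvAdd
import Pool.Agent.Helper5.Pe.Volterra

set_option autoImplicit false

open MeasureTheory Set Filter Topology

namespace Pool.Agent.Helper5.PG

theorem EBd.mono {C m C' m' : ℝ} {f : ℝ → ℂ} (hf : EBd C m f) (h1 : C ≤ C') (h2 : m ≤ m') :
    EBd C' m' f := by
  refine ⟨hf.meas, hf.zero, fun t ht => (hf.bd t ht).trans ?_⟩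
  have hC : 0 ≤ C := by
    have := (norm_nonneg _).trans (hf.bd t ht)
    by_contra hneg
    push Not at hneg
    have := mul_neg_of_neg_of_pos hneg (Real.exp_pos (m * t))
    linarith
  exact mul_le_mul h1 (Real.exp_le_exp.mpr (by nlinarith)) (Real.exp_pos _).le (hC.trans h1)

theorem EBd.nonneg {C m : ℝ} {f : ℝ → ℂ} (hf : EBd C m f) : 0 ≤ C := by
  have := (norm_nonneg _).trans (hf.bd 1 one_pos)
  by_contra hneg
  push Not at hneg
  have := mul_neg_of_neg_of_pos hneg (Real.exp_pos (m * 1))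
  linarith

theorem EBd.add {C m D m' : ℝ} {f g : ℝ → ℂ} (hf : EBd C m f) (hg : EBd D m' g) :
    EBd (C + D) (max m m') (f + g) := by
  refine ⟨hf.meas.add hg.meas, fun t ht => by simp [hf.zero t ht, hg.zero t ht], fun t ht => ?_⟩
  have h1 := (hf.mono le_rfl (le_max_left m m')).bd t ht
  have h2 := (hg.mono le_rfl (le_max_right m m')).bd t ht
  calc ‖(f + g) t‖ ≤ ‖f t‖ + ‖g t‖ := norm_add_le _ _
    _ ≤ _ := by linarith

theorem EBd.smul {C m : ℝ} {f : ℝ → ℂ} (hf : EBd C m f) (a : ℂ) : EBd (‖a‖ * C) m (a • f) := by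
  refine ⟨hf.meas.const_smul a, fun t ht => by simp [hf.zero t ht], fun t ht => ?_⟩
  have h1 := hf.bd t ht
  calc ‖(a • f) t‖ = ‖a‖ * ‖f t‖ := by simp
    _ ≤ ‖a‖ * (C * Real.exp (m * t)) := by gcongr
    _ = _ := by ring

/-- the convolution algebra of exponentially bounded functions -/
def EBs : Submodule ℂ (ℝ → ℂ) where
  carrier := {f | ∃ C m : ℝ, EBd C m f}
  zero_mem' := ⟨0, 0, measurable_const, fun t _ => rfl, fun t _ => by simp⟩
  add_mem' := fun ⟨_, _, hf⟩ ⟨_, _, hg⟩ => ⟨_, _, hf.add hg⟩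
  smul_mem' := fun a _ ⟨_, _, hf⟩ => ⟨_, _, hf.smul a⟩

theorem EBs.common (f g h : EBs) : ∃ C m : ℝ, 0 ≤ C ∧ EBd C m f.1 ∧ EBd C m g.1 ∧ EBd C m h.1 := by
  obtain ⟨C1, m1, h1⟩ := f.2
  obtain ⟨C2, m2, h2⟩ := g.2
  obtain ⟨C3, m3, h3⟩ := h.2
  refine ⟨max C1 (max C2 C3), max m1 (max m2 m3), le_max_of_le_left h1.nonneg,
    h1.mono (le_max_left _ _) (le_max_left _ _),
    h2.mono (le_max_of_le_right (le_max_left _ _)) (le_max_of_le_right (le_max_left _ _)),
    h3.mono (le_max_of_le_right (le_max_right _ _)) (le_max_of_le_right (le_max_right _ _))⟩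

noncomputable instance : Mul EBs :=
  ⟨fun f g => ⟨cv f.1 g.1, by
    obtain ⟨C, m, hC, h1, h2, _⟩ := EBs.common f g g
    exact ⟨_, _, (cv_ebd C C m hC hC _ _ h1 h2).2⟩⟩⟩

theorem EBs.mul_val (f g : EBs) : (f * g).1 = cv f.1 g.1 := rfl

theorem EBs.mul_add' (f g h : EBs) : f * (g + h) = f * g + f * h := by
  obtain ⟨C, m, hC, h1, h2, h3⟩ := EBs.common f g h
  exact Subtype.ext (cv_add C m _ _ _ h1 h2 h3)

theorem EBs.mul_comm' (f g : EBs) : f * g = g * f := Subtype.ext (cv_comm _ _)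

noncomputable instance : NonUnitalCommRing EBs :=
  { (inferInstance : AddCommGroup EBs), (inferInstance : Mul EBs) with
    left_distrib := EBs.mul_add'
    right_distrib := fun f g h => by
      rw [EBs.mul_comm', EBs.mul_add', EBs.mul_comm' h f, EBs.mul_comm' h g]
    zero_mul := fun f => Subtype.ext (by funext t; simp [EBs.mul_val, cv])
    mul_zero := fun f => Subtype.ext (by funext t; simp [EBs.mul_val, cv])
    mul_assoc := fun f g h => by
      obtain ⟨C, m, hC, h1, h2, h3⟩ := EBs.common f g h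
      exact Subtype.ext (cv_assoc C m _ _ _ h1 h2 h3)
    mul_comm := EBs.mul_comm' }

instance : IsScalarTower ℂ EBs EBs :=
  ⟨fun a f g => Subtype.ext (by
    funext t
    simp only [smul_eq_mul, EBs.mul_val, Submodule.coe_smul, cv, Pi.smul_apply, smul_mul_assoc]
    rw [← intervalIntegral.integral_const_mul]
    refine intervalIntegral.integral_congr fun s _ => ?_
    simp [mul_assoc])⟩

instance : SMulCommClass ℂ EBs EBs :=
  ⟨fun a f g => by
    show a • (f * g) = f * (a • g)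
    rw [EBs.mul_comm' f (a • g), smul_mul_assoc, EBs.mul_comm' g f]⟩

/-- every element of the convolution algebra is quasi-regular -/
theorem EBs.quasi (q : EBs) : ∃ Q : EBs, Q + q * Q = q := by
  obtain ⟨C, m, hq⟩ := q.2
  obtain ⟨Q, hQ, h⟩ := volterra C m hq.nonneg q.1 hq
  exact ⟨⟨Q, _, _, hQ⟩, Subtype.ext h⟩

theorem EBs.isUnit (q : EBs) : IsUnit (1 + (q : Unitization ℂ EBs)) := by
  obtain ⟨Q, hQ⟩ := EBs.quasi q
  refine IsUnit.of_mul_eq_one (1 - (Q : Unitization ℂ EBs)) ?_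
  have : (Q : Unitization ℂ EBs) + (q : Unitization ℂ EBs) * (Q : Unitization ℂ EBs)
      = (q : Unitization ℂ EBs) := by
    rw [← Unitization.inr_mul, ← Unitization.inr_add, hQ]
  linear_combination -this

theorem uu_ebd : EBd 1 0 uu := by
  refine ⟨?_, fun t ht => by simp [uu, not_lt.mpr ht], fun t ht => by simp [uu, ht]⟩
  exact Measurable.ite measurableSet_Ioi measurable_const measurable_const

theorem ee_ebd (z : ℂ) : EBd 1 z.re (ee z) := by
  refine ⟨?_, fun t ht => by simp [ee, not_lt.mpr ht], fun t ht => by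
    simp [ee, ht, Complex.norm_exp]⟩
  exact Measurable.ite measurableSet_Ioi (by fun_prop) measurable_const


end Pool.Agent.Helper5.PG
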