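import Mathlib
import Pool.Agent.Helper5.Pe.Defs

set_option autoImplicit false
open MeasureTheory Set Filter Topology

namespace Pool.Agent.Helper5.PG

theorem lap_int_LapCv (C m : ℝ) (f : ℝ → ℂ) (hf : EBd C m f) (z : ℂ)
    (hz : m < z.re) : IntegrableOn (fun r : ℝ => Complex.exp (-(z * r)) * f r) (Ioi 0) := by
  have h1 : IntegrableOn (fun r : ℝ => C * Real.exp ((m - z.re) * r)) (Ioi 0) := by
    exact (integrableOn_exp_mul_Ioi (by linarith) 0).const_mul C
  refine h1.mono' ?_ ?_
  · exact ((by fun_prop : Measurable (fun r : ℝ => Complex.exp (-(z * r)))).mul hf.meas).aestronglyMeasurable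
  · refine (ae_restrict_iff' measurableSet_Ioi).2 (Eventually.of_forall fun r hr => ?_)
    have hr' : (0:ℝ) < r := hr
    rw [norm_mul, Complex.norm_exp]
    have h2 : (-(z * (r:ℂ))).re = -(z.re * r) := by simp
    rw [h2]
    calc Real.exp (-(z.re * r)) * ‖f r‖ ≤ Real.exp (-(z.re * r)) * (C * Real.exp (m * r)) :=
          mul_le_mul_of_nonneg_left (hf.bd r hr') (Real.exp_pos _).le
      _ = C * Real.exp ((m - z.re) * r) := by
          rw [show (m - z.re) * r = -(z.re * r) + m * r by ring, Real.exp_add]; ring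

theorem lap_cv (C m : ℝ) (hC : 0 ≤ C) (f g : ℝ → ℂ) (hf : EBd C m f) (hg : EBd C m g) (z : ℂ)
    (hz : m < z.re) : lap (cv f g) z = lap f z * lap g z := by
  have key := integral_posConvolution (lap_int_LapCv C m g hg z hz) (lap_int_LapCv C m f hf z hz)
    (ContinuousLinearMap.mul ℝ ℂ)
  simp only [ContinuousLinearMap.mul_apply'] at key
  rw [mul_comm (lap f z)]
  unfold lap
  rw [← key]
  refine setIntegral_congr_fun measurableSet_Ioi (fun x _ => ?_)
  simp only [cv]
  rw [← intervalIntegral.integral_const_mul]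
  refine intervalIntegral.integral_congr (fun s _ => ?_)
  have h3 : Complex.exp (-(z * (x:ℂ))) = Complex.exp (-(z * (s:ℂ))) * Complex.exp (-(z * ((x - s : ℝ):ℂ))) := by
    rw [← Complex.exp_add]; congr 1; push_cast; ring
  rw [h3]; ring

end Pool.Agent.Helper5.PG
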