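import Mathlib
import Pool.Agent.Helper5.Pe.Defs
import Pool.Agent.Helper5.Pg.RadicalBound

set_option autoImplicit false
open MeasureTheory Set Filter Topology

namespace Pool.Agent.Helper5.PG

theorem exp_int (w : ℝ → ℝ) (hw : IsWeight w) (hr : IsRadical w) (n : ℕ) (m : ℝ) :
    IntegrableOn (fun t : ℝ => t ^ n * Real.exp (m * t) * w t) (Ioi 0) := by
  obtain ⟨K, hK⟩ := radical_bound w hw hr (m + 1)
  have hG := Real.GammaIntegral_convergent (s := (n : ℝ) + 1) (by positivity)
  have hI : IntegrableOn (fun t : ℝ => K * (Real.exp (-t) * t ^ ((n : ℝ) + 1 - 1))) (Ioi 0) :=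
    hG.const_mul K
  have hc : ContinuousOn (fun t : ℝ => t ^ n * Real.exp (m * t) * w t) (Ioi 0) := by
    refine ContinuousOn.mul (by fun_prop) (hw.cont.mono Ioi_subset_Ici_self)
  refine Integrable.mono' hI (hc.aestronglyMeasurable measurableSet_Ioi) ?_
  refine (ae_restrict_iff' measurableSet_Ioi).2 (Eventually.of_forall fun t ht => ?_)
  have ht0 : (0 : ℝ) < t := ht
  have hw0 := hw.pos t ht0.le
  rw [Real.norm_eq_abs, abs_of_nonneg (by positivity)]
  have e1 : (n : ℝ) + 1 - 1 = n := by ring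
  rw [e1, Real.rpow_natCast]
  have h1 := hK t ht0.le
  have h2 : t ^ n * Real.exp (m * t) * w t ≤ t ^ n * Real.exp (m * t) *
      (K * Real.exp (-((m + 1) * t))) := mul_le_mul_of_nonneg_left h1 (by positivity)
  refine h2.trans (le_of_eq ?_)
  have e2 : Real.exp (m * t) * Real.exp (-((m + 1) * t)) = Real.exp (-t) := by
    rw [← Real.exp_add]
    congr 1
    ring
  rw [← e2]
  ring

end Pool.Agent.Helper5.PG
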