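import Mathlib
import Pool.Agent.Helper5.Pe.Defs
import Pool.Agent.Helper5.Pe.ExpInt

set_option autoImplicit false
open MeasureTheory Set Filter Topology

namespace Pool.Agent.Helper5.PG

theorem inl1_of_ebd (w : ℝ → ℝ) (hw : IsWeight w) (hr : IsRadical w) (C m : ℝ) (hC : 0 ≤ C)
    (g : ℝ → ℂ) (hg : EBd C m g) :
    InL1 w g ∧ ∫ t in Ioi (0:ℝ), ‖g t‖ * w t ≤ C * ∫ t in Ioi (0:ℝ), Real.exp (m * t) * w t := by
  have hI : IntegrableOn (fun t : ℝ => Real.exp (m * t) * w t) (Ioi 0) := by
    have := exp_int w hw hr 0 m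
    simpa using this
  have hIC : IntegrableOn (fun t : ℝ => C * (Real.exp (m * t) * w t)) (Ioi 0) := hI.const_mul C
  have hwm : AEStronglyMeasurable (fun t : ℝ => (w t : ℂ)) (volume.restrict (Ioi (0:ℝ))) := by
    have h1 : ContinuousOn (fun t : ℝ => (w t : ℂ)) (Ioi 0) :=
      Complex.continuous_ofReal.comp_continuousOn (hw.cont.mono Ioi_subset_Ici_self)
    exact h1.aestronglyMeasurable measurableSet_Ioi
  have hbd : ∀ t ∈ Ioi (0:ℝ), ‖g t‖ * w t ≤ C * (Real.exp (m * t) * w t) := by
    intro t ht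
    have h1 := hg.bd t ht
    have h2 := hw.pos t (le_of_lt ht)
    nlinarith
  have hG : InL1 w g := by
    unfold InL1
    refine Integrable.mono' hIC ((hg.meas.aestronglyMeasurable).mul hwm) ?_
    filter_upwards [ae_restrict_mem measurableSet_Ioi] with t ht
    have h2 := hw.pos t (le_of_lt ht)
    rw [norm_mul, Complex.norm_real, Real.norm_of_nonneg h2.le]
    exact hbd t ht
  refine ⟨hG, ?_⟩
  rw [← integral_const_mul]
  refine setIntegral_mono_on ?_ hIC measurableSet_Ioi hbd
  have h3 := hG.norm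
  refine (h3.congr ?_)
  filter_upwards [ae_restrict_mem measurableSet_Ioi] with t ht
  have h2 := hw.pos t (le_of_lt ht)
  rw [norm_mul, Complex.norm_real, Real.norm_of_nonneg h2.le]

end Pool.Agent.Helper5.PG
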