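import Mathlib
import Pool.Agent.Helper5.Pe.Defs
import Pool.Agent.Helper5.Pe.CvEbd

set_option autoImplicit false
open MeasureTheory Set Filter Topology

namespace Pool.Agent.Helper5.PG

theorem EBd.mono_exp {C m m' : ℝ} {f : ℝ → ℂ} (hC : 0 ≤ C) (hf : EBd C m f) (hm : m ≤ m') :
    EBd C m' f := by
  refine ⟨hf.meas, hf.zero, fun t ht => (hf.bd t ht).trans ?_⟩
  have h1 : Real.exp (m * t) ≤ Real.exp (m' * t) :=
    Real.exp_le_exp.mpr (mul_le_mul_of_nonneg_right hm ht.le)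
  exact mul_le_mul_of_nonneg_left h1 hC

theorem cpow_ebd (C m : ℝ) (f : ℝ → ℂ) (hf : EBd C m f) (k : ℕ) :
    ∃ C' m' : ℝ, 0 ≤ C' ∧ EBd C' m' (cpow f k) := by
  have hC : 0 ≤ C := by
    by_contra hcon
    have h1 := hf.bd 1 one_pos
    have h2 : C * Real.exp (m * 1) < 0 := mul_neg_of_neg_of_pos (not_le.mp hcon) (Real.exp_pos _)
    linarith [norm_nonneg (f 1)]
  induction k with
  | zero => exact ⟨C, m, hC, hf⟩
  | succ k ih =>
    obtain ⟨C', m', hC', h'⟩ := ih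
    refine ⟨C * C', max m m' + 1, mul_nonneg hC hC', ?_⟩
    exact (cv_ebd C C' (max m m') hC hC' f (cpow f k) (hf.mono_exp hC (le_max_left _ _))
      (h'.mono_exp hC' (le_max_right _ _))).2

end Pool.Agent.Helper5.PG
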