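import Mathlib
import Pool.Agent.Helper5.Pe.Defs

set_option autoImplicit false
open MeasureTheory Set Filter Topology

namespace Pool.Agent.Helper5.PG

theorem lap_ee (y z : ℂ) (h : y.re < z.re) : lap (ee y) z = 1 / (z - y) := by
  have hre : (y - z).re < 0 := by simp; linarith
  have h1 : lap (ee y) z = ∫ r in Ioi (0:ℝ), Complex.exp ((y - z) * r) := by
    unfold lap
    apply setIntegral_congr_fun measurableSet_Ioi
    intro r hr
    have hr' : (0:ℝ) < r := hr
    simp only [ee, if_pos hr']
    rw [← Complex.exp_add]
    congr 1
    ring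
  rw [h1, integral_exp_mul_complex_Ioi hre 0]
  have hne : z - y ≠ 0 := by
    intro h0
    have : (z - y).re = 0 := by rw [h0]; simp
    simp at this
    linarith
  have hne' : y - z ≠ 0 := by
    intro h0
    apply hne
    rw [← neg_sub, h0, neg_zero]
  simp
  field_simp
  ring

end Pool.Agent.Helper5.PG
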