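import Mathlib
import Pool.Agent.Helper5.Pe.Defs

set_option autoImplicit false
open MeasureTheory Set Filter Topology

namespace Pool.Agent.Helper5.PG

theorem ring_one {A : Type*} [CommRing A] (u e f ρ q Q r ρ0 c z : A)
    (hu : IsUnit (1 - z * u)) (ha : f + ρ0 * (u * f) + u * (ρ * f) = c * u)
    (hb : e = u + z * (u * e)) (hc : q = e * ρ - r * e) (hd : Q + q * Q = q) :
    c * (e - e * Q) = f + (z + ρ0 + r) * (f * (e - e * Q)) := by
  apply hu.mul_left_cancel
  linear_combination ((c - (z + ρ0 + r) * f) * (1 - Q) - f * (1 - Q) * (ρ - r)) * hb - (1 - Q) * ha - f * (1 - z * u) * (1 - Q) * hc - f * (1 - z * u) * hd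

end Pool.Agent.Helper5.PG
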