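import Mathlib
import Pool.Agent.Helper5.Pe.Defs

set_option autoImplicit false
open MeasureTheory Set Filter Topology

namespace Pool.Agent.Helper5.PG

theorem uu_ee (z : ℂ) : ee z = uu + z • cv uu (ee z) := by
  funext t
  simp only [Pi.add_apply, Pi.smul_apply, smul_eq_mul]
  by_cases ht : 0 < t
  · have h1 : cv uu (ee z) t = ∫ s in (0:ℝ)..t, Complex.exp (z * s) := by
      unfold cv
      apply intervalIntegral.integral_congr_ae
      have hne : ∀ᵐ s : ℝ ∂volume, s ≠ t := by
        have : ({t} : Set ℝ)ᶜ ∈ ae volume := by
          rw [mem_ae_iff, compl_compl]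
          exact Real.volume_singleton
        exact this
      filter_upwards [hne] with s hs hmem
      rw [uIoc_of_le ht.le] at hmem
      have hst : s < t := lt_of_le_of_ne hmem.2 hs
      have hu : uu (t - s) = 1 := by unfold uu; rw [if_pos (by linarith)]
      have he : ee z s = Complex.exp (z * s) := by unfold ee; rw [if_pos hmem.1]
      rw [hu, he, one_mul]
    have h2 : z * ∫ s in (0:ℝ)..t, Complex.exp (z * s) = Complex.exp (z * t) - 1 := by
      rw [← intervalIntegral.integral_const_mul]
      have hd : ∀ s ∈ uIcc (0:ℝ) t, HasDerivAt (fun s : ℝ => Complex.exp (z * s))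
          (z * Complex.exp (z * s)) s := by
        intro s _
        have h3 : HasDerivAt (fun s : ℝ => z * (s : ℂ)) z s := by
          have := (Complex.ofRealCLM.hasDerivAt (x := s)).const_mul z
          simpa using this
        have h4 := h3.cexp
        have h5 : Complex.exp (z * s) * z = z * Complex.exp (z * s) := mul_comm _ _
        rw [← h5]
        exact h4
      rw [intervalIntegral.integral_eq_sub_of_hasDerivAt hd]
      · simp
      · apply Continuous.intervalIntegrable
        fun_prop
    rw [h1, h2]
    unfold ee uu
    rw [if_pos ht, if_pos ht]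
    ring
  · have ht' : t ≤ 0 := not_lt.1 ht
    have h1 : cv uu (ee z) t = 0 := by
      unfold cv
      rw [intervalIntegral.integral_symm]
      have : ∫ s in t..(0:ℝ), uu (t - s) * ee z s = 0 := by
        apply intervalIntegral.integral_zero_ae
        filter_upwards with s hmem
        rw [uIoc_of_le ht'] at hmem
        have : ee z s = 0 := by unfold ee; rw [if_neg (not_lt.2 hmem.2)]
        rw [this, mul_zero]
      rw [this, neg_zero]
    rw [h1]
    unfold ee uu
    rw [if_neg ht, if_neg ht]
    simp

end Pool.Agent.Helper5.PG
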