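import Mathlib
import Pool.Agent.Helper5.Pe.Defs
import Pool.Agent.Helper5.Pe.Ring
import Pool.Agent.Helper5.Pe.CvComm
import Pool.Agent.Helper5.Pe.CvEbd
import Pool.Agent.Helper5.Pe.CvAssoc
import Pool.Agent.Helper5.Pe.CvAdd
import Pool.Agent.Helper5.Pe.Volterra
import Pool.Agent.Helper5.Pe.UuEe
import Pool.Agent.Helper5.Pe.RingOne

set_option autoImplicit false
open MeasureTheory Set Filter Topology

namespace Pool.Agent.Helper5.PG

theorem alg1 (C m : ℝ) (f ρ q Q : ℝ → ℂ) (hf : EBd C m f) (hρ : EBd C m ρ) (hq : EBd C m q)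
    (hQ : EBd C m Q) (c ρ0 r z : ℂ)
    (hrel : f + ρ0 • cv uu f + cv uu (cv ρ f) = c • uu)
    (h1 : cv (ee z) ρ = r • ee z + q) (h2 : Q + cv q Q = q) :
    c • (ee z - cv (ee z) Q) = f + (z + ρ0 + r) • cv f (ee z - cv (ee z) Q) := by
  let F : EBs := ⟨f, C, m, hf⟩
  let P : EBs := ⟨ρ, C, m, hρ⟩
  let q' : EBs := ⟨q, C, m, hq⟩
  let Q' : EBs := ⟨Q, C, m, hQ⟩
  let U : EBs := ⟨uu, 1, 0, uu_ebd⟩
  let E : EBs := ⟨ee z, 1, z.re, ee_ebd z⟩
  have sm : ∀ (a : ℂ) (x : EBs), algebraMap ℂ (Unitization ℂ EBs) a * (x : Unitization ℂ EBs) =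
      ((a • x : EBs) : Unitization ℂ EBs) := by
    intro a x
    rw [Unitization.inr_smul, Algebra.smul_def]
  have hu : IsUnit (1 - algebraMap ℂ (Unitization ℂ EBs) z * (U : Unitization ℂ EBs)) := by
    have := EBs.isUnit (-(z • U))
    rw [Unitization.inr_neg, ← sm, ← sub_eq_add_neg] at this
    exact this
  have ha' : F + ρ0 • (U * F) + U * (P * F) = c • U := Subtype.ext hrel
  have hb' : E = U + z • (U * E) := Subtype.ext (uu_ee z)
  have hc' : E * P = r • E + q' := Subtype.ext h1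
  have hd' : Q' + q' * Q' = q' := Subtype.ext h2
  have ha : (F : Unitization ℂ EBs) + algebraMap ℂ (Unitization ℂ EBs) ρ0 *
      ((U : Unitization ℂ EBs) * F) + (U : Unitization ℂ EBs) * ((P : Unitization ℂ EBs) * F) =
      algebraMap ℂ (Unitization ℂ EBs) c * U := by
    rw [← Unitization.inr_mul, ← Unitization.inr_mul, ← Unitization.inr_mul, sm, sm,
      ← Unitization.inr_add, ← Unitization.inr_add, ha']
  have hb : (E : Unitization ℂ EBs) = U + algebraMap ℂ (Unitization ℂ EBs) z *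
      ((U : Unitization ℂ EBs) * E) := by
    rw [← Unitization.inr_mul, sm, ← Unitization.inr_add, ← hb']
  have hc : (q' : Unitization ℂ EBs) = (E : Unitization ℂ EBs) * P -
      algebraMap ℂ (Unitization ℂ EBs) r * E := by
    rw [← Unitization.inr_mul, sm, hc', Unitization.inr_add]
    ring
  have hd : (Q' : Unitization ℂ EBs) + (q' : Unitization ℂ EBs) * Q' = q' := by
    rw [← Unitization.inr_mul, ← Unitization.inr_add, hd']
  have key := ring_one (A := Unitization ℂ EBs) U E F P q' Q' (algebraMap ℂ _ r)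
    (algebraMap ℂ _ ρ0) (algebraMap ℂ _ c) (algebraMap ℂ _ z) hu ha hb hc hd
  rw [← Unitization.inr_mul, ← Unitization.inr_sub, sm, ← Unitization.inr_mul, ← map_add,
    ← map_add, sm, ← Unitization.inr_add] at key
  have key2 := Unitization.inr_injective key
  exact congrArg Subtype.val key2

end Pool.Agent.Helper5.PG
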