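import Mathlib
import Pool.Agent.Helper5.Pe.Defs
import Pool.Agent.Helper5.Pe.ExpInt

set_option autoImplicit false
open MeasureTheory Set Filter Topology

namespace Pool.Agent.Helper5.PG

theorem ent_deriv_in (w : ℝ → ℝ) (hw : IsWeight w) (hr : IsRadical w) (n : ℕ) (z : ℂ) :
    InL1 w (fun t : ℝ => (t : ℂ) ^ n * Complex.exp (z * t)) := by
  unfold InL1
  have h1 := exp_int w hw hr n z.re
  refine Integrable.mono' h1 ?_ ?_
  · apply ContinuousOn.aestronglyMeasurable _ measurableSet_Ioi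
    have hc : ContinuousOn w (Ioi 0) := hw.cont.mono Ioi_subset_Ici_self
    have h2 : ContinuousOn (fun t : ℝ => (w t : ℂ)) (Ioi 0) :=
      Complex.continuous_ofReal.comp_continuousOn hc
    exact ContinuousOn.mul (by fun_prop) h2
  · refine (ae_restrict_iff' measurableSet_Ioi).2 (Eventually.of_forall fun t ht => ?_)
    have ht' : (0:ℝ) < t := ht
    rw [norm_mul, norm_mul, norm_pow, Complex.norm_real, Complex.norm_real, Complex.norm_exp,
      Real.norm_of_nonneg ht'.le, Real.norm_of_nonneg (hw.pos t ht'.le).le]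
    apply le_of_eq
    congr 3
    simp

theorem ent_deriv_add (w : ℝ → ℝ) (g h : ℝ → ℂ) (hg : InL1 w g) (hh : InL1 w h) :
    InL1 w (g + h) := by
  unfold InL1 at *
  refine Integrable.congr (hg.add hh) (Eventually.of_forall fun t => ?_)
  simp [add_mul]

theorem ent_deriv_smul (w : ℝ → ℝ) (a : ℂ) (g : ℝ → ℂ) (hg : InL1 w g) :
    InL1 w (a • g) := by
  unfold InL1 at *
  refine Integrable.congr (Integrable.const_mul hg a) (Eventually.of_forall fun t => ?_)
  simp [mul_assoc]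

theorem ent_deriv (w : ℝ → ℝ) (hw : IsWeight w) (hr : IsRadical w) (Φ : (ℝ → ℂ) → ℂ)
    (hΦ : IsFun w Φ) (n : ℕ) (z : ℂ) :
    InL1 w (fun t : ℝ => (t : ℂ) ^ n * Complex.exp (z * t)) ∧
    HasDerivAt (fun z : ℂ => Φ (fun t : ℝ => (t : ℂ) ^ n * Complex.exp (z * t)))
      (Φ (fun t : ℝ => (t : ℂ) ^ (n + 1) * Complex.exp (z * t))) z := by
  refine ⟨ent_deriv_in w hw hr n z, ?_⟩
  set K : ℝ := ∫ t in Ioi (0:ℝ), t ^ (n + 2) * Real.exp ((z.re + 1) * t) * w t with hK
  rw [hasDerivAt_iff_isLittleO]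
  refine Asymptotics.IsBigO.trans_isLittleO (g := fun y : ℂ => ‖y - z‖ ^ 2) ?_
    (Asymptotics.isLittleO_pow_sub_sub z (by norm_num))
  refine Asymptotics.IsBigO.of_bound K ?_
  filter_upwards [Metric.ball_mem_nhds z one_pos] with y hy
  have hh : ‖y - z‖ ≤ 1 := by
    rw [← dist_eq_norm]; exact (Metric.mem_ball.1 hy).le
  set h := y - z with hhd
  have hyz : y = z + h := by rw [hhd]; ring
  have I1 := ent_deriv_in w hw hr n y
  have I2 := ent_deriv_in w hw hr n z
  have I3 := ent_deriv_in w hw hr (n + 1) z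
  set g1 : ℝ → ℂ := fun t : ℝ => (t : ℂ) ^ n * Complex.exp (y * t) with hg1
  set g2 : ℝ → ℂ := fun t : ℝ => (t : ℂ) ^ n * Complex.exp (z * t) with hg2
  set g3 : ℝ → ℂ := fun t : ℝ => (t : ℂ) ^ (n + 1) * Complex.exp (z * t) with hg3
  have J2 := ent_deriv_smul w (-1) g2 I2
  have J3 := ent_deriv_smul w (-h) g3 I3
  have J4 := ent_deriv_add w _ _ J2 J3
  have J5 := ent_deriv_add w _ _ I1 J4
  have e1 : Φ g1 - Φ g2 - h • Φ g3 = Φ (g1 + ((-1 : ℂ) • g2 + (-h) • g3)) := by
    rw [hΦ.add _ _ I1 J4, hΦ.add _ _ J2 J3, hΦ.smul _ _ I2, hΦ.smul _ _ I3, smul_eq_mul]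
    ring
  rw [e1]
  have b1 := hΦ.bd _ J5
  refine b1.trans ?_
  rw [Real.norm_of_nonneg (by positivity), hK, ← integral_mul_const]
  have hi := exp_int w hw hr (n + 2) (z.re + 1)
  refine setIntegral_mono_on ?_ (hi.mul_const _) measurableSet_Ioi ?_
  · have := J5.norm
    refine Integrable.congr this ?_
    refine (ae_restrict_iff' measurableSet_Ioi).2 (Eventually.of_forall fun t ht => ?_)
    have ht' : (0:ℝ) < t := ht
    simp only [norm_mul, Complex.norm_real]
    rw [Real.norm_of_nonneg (hw.pos t ht'.le).le]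
  · intro t ht
    have ht' : (0:ℝ) < t := ht
    have hwt := hw.pos t ht'.le
    have e2 : (g1 + ((-1 : ℂ) • g2 + (-h) • g3)) t
        = (t : ℂ) ^ n * Complex.exp (z * t) * (Complex.exp (h * t) - ∑ m ∈ Finset.range 2, (h * t) ^ m / (m.factorial : ℂ)) := by
      simp only [hg1, hg2, hg3, Pi.add_apply, Pi.smul_apply, smul_eq_mul, Finset.sum_range_succ,
        Finset.sum_range_zero]
      rw [hyz, add_mul, Complex.exp_add]
      simp
      ring
    rw [e2, norm_mul, norm_mul, norm_pow, Complex.norm_real, Real.norm_of_nonneg ht'.le,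
      Complex.norm_exp]
    have b2 := Complex.norm_exp_sub_sum_le_norm_mul_exp (h * t) 2
    have e3 : (z * (t : ℂ)).re = z.re * t := by simp
    rw [e3]
    have b3 : ‖h * (t : ℂ)‖ = ‖h‖ * t := by
      rw [norm_mul, Complex.norm_real, Real.norm_of_nonneg ht'.le]
    rw [b3] at b2
    have b4 : Real.exp (‖h‖ * t) ≤ Real.exp t := by
      apply Real.exp_le_exp.2
      nlinarith
    have b5 : ‖Complex.exp (h * t) - ∑ m ∈ Finset.range 2, (h * t) ^ m / (m.factorial : ℂ)‖
        ≤ (‖h‖ * t) ^ 2 * Real.exp t :=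
      b2.trans (mul_le_mul_of_nonneg_left b4 (by positivity))
    calc t ^ n * Real.exp (z.re * t) * ‖Complex.exp (h * t) - ∑ m ∈ Finset.range 2, (h * t) ^ m / (m.factorial : ℂ)‖ * w t
        ≤ t ^ n * Real.exp (z.re * t) * ((‖h‖ * t) ^ 2 * Real.exp t) * w t := by
          gcongr
      _ = t ^ (n + 2) * Real.exp ((z.re + 1) * t) * w t * ‖h‖ ^ 2 := by
          rw [add_mul, Real.exp_add, one_mul]; ring

end Pool.Agent.Helper5.PG
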