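import Mathlib
import Pool.Agent.Helper5.Pe.Defs
import Pool.Agent.Helper5.Pe.ExpInt

set_option autoImplicit false
open MeasureTheory Set Filter Topology

namespace Pool.Agent.Helper5.PG

theorem aux_int (w : ℝ → ℝ) (hw : IsWeight w) (hr : IsRadical w) (m : ℝ) :
    IntegrableOn (fun t : ℝ => Real.exp (m * t) * w t) (Ioi 0) := by
  have h := exp_int w hw hr 0 m
  refine h.congr_fun ?_ measurableSet_Ioi
  intro t _
  simp

theorem aux_norm (z : ℂ) (t : ℝ) : ‖Complex.exp (z * t)‖ = Real.exp (z.re * t) := by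
  rw [Complex.norm_exp]
  simp

theorem aux_inL1 (w : ℝ → ℝ) (hw : IsWeight w) (hr : IsRadical w) (z : ℂ) :
    InL1 w (fun t : ℝ => Complex.exp (z * t)) := by
  unfold InL1
  have h := aux_int w hw hr z.re
  refine Integrable.mono h ?_ ?_
  · apply ContinuousOn.aestronglyMeasurable _ measurableSet_Ioi
    apply ContinuousOn.mul
    · apply Continuous.continuousOn
      fun_prop
    · apply Complex.continuous_ofReal.comp_continuousOn
      exact hw.cont.mono Ioi_subset_Ici_self
  · refine (ae_restrict_iff' measurableSet_Ioi).mpr (Eventually.of_forall ?_)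
    intro t ht
    have ht' : (0:ℝ) < t := ht
    rw [norm_mul, norm_mul, aux_norm, Complex.norm_real, Real.norm_eq_abs, Real.norm_eq_abs,
      Real.abs_exp]

theorem aux_bd (w : ℝ → ℝ) (hw : IsWeight w) (hr : IsRadical w) (Φ : (ℝ → ℂ) → ℂ)
    (hΦ : IsFun w Φ) (A : ℝ) (z : ℂ) (hz : z.re ≤ A) :
      ‖Φ (fun t : ℝ => Complex.exp (z * t))‖ ≤ ∫ t in Ioi (0:ℝ), Real.exp (A * t) * w t := by
  refine (hΦ.bd _ (aux_inL1 w hw hr z)).trans ?_
  have he : ∫ t in Ioi (0:ℝ), ‖Complex.exp (z * t)‖ * w t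
      = ∫ t in Ioi (0:ℝ), Real.exp (z.re * t) * w t := by
    apply setIntegral_congr_fun measurableSet_Ioi
    intro t _
    simp only [aux_norm]
  rw [he]
  refine setIntegral_mono_on (aux_int w hw hr z.re) (aux_int w hw hr A) measurableSet_Ioi ?_
  intro t ht
  have ht' : (0:ℝ) < t := ht
  have hwt := hw.pos t ht'.le
  apply mul_le_mul_of_nonneg_right _ hwt.le
  apply Real.exp_le_exp.mpr
  exact mul_le_mul_of_nonneg_right hz ht'.le



theorem ent_small (w : ℝ → ℝ) (hw : IsWeight w) (hr : IsRadical w) (Φ : (ℝ → ℂ) → ℂ)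
    (hΦ : IsFun w Φ) :
    (∀ (A : ℝ) (z : ℂ), z.re ≤ A →
      ‖Φ (fun t : ℝ => Complex.exp (z * t))‖ ≤ ∫ t in Ioi (0:ℝ), Real.exp (A * t) * w t) ∧
    Tendsto (fun x : ℝ => Φ (fun t : ℝ => Complex.exp (((-x : ℝ) : ℂ) * t))) atTop (𝓝 0) := by
  refine ⟨fun A z hz => aux_bd w hw hr Φ hΦ A z hz, ?_⟩
  have hlim : Tendsto (fun x : ℝ => ∫ t in Ioi (0:ℝ), Real.exp ((-x) * t) * w t) atTop
      (𝓝 (∫ t in Ioi (0:ℝ), (0:ℝ))) := by
    refine tendsto_integral_filter_of_dominated_convergence
      (fun t : ℝ => Real.exp ((0:ℝ) * t) * w t) ?_ ?_ ?_ ?_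
    · exact Eventually.of_forall fun x => (aux_int w hw hr (-x)).aestronglyMeasurable
    · filter_upwards [eventually_ge_atTop (0:ℝ)] with x hx
      refine (ae_restrict_iff' measurableSet_Ioi).mpr (Eventually.of_forall ?_)
      intro t ht
      have ht' : (0:ℝ) < t := ht
      have hwt := hw.pos t ht'.le
      rw [Real.norm_eq_abs, abs_of_pos (mul_pos (Real.exp_pos _) hwt)]
      apply mul_le_mul_of_nonneg_right _ hwt.le
      apply Real.exp_le_exp.mpr
      apply mul_le_mul_of_nonneg_right _ ht'.le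
      linarith
    · exact aux_int w hw hr 0
    · refine (ae_restrict_iff' measurableSet_Ioi).mpr (Eventually.of_forall ?_)
      intro t ht
      have ht' : (0:ℝ) < t := ht
      have h1 : Tendsto (fun x : ℝ => (-x) * t) atTop atBot := by
        have h2 : Tendsto (fun x : ℝ => x * t) atTop atTop := tendsto_id.atTop_mul_const ht'
        have h3 := tendsto_neg_atTop_atBot.comp h2
        refine h3.congr ?_
        intro x
        simp
      have h4 : Tendsto (fun x : ℝ => Real.exp ((-x) * t)) atTop (𝓝 0) :=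
        Real.tendsto_exp_atBot.comp h1
      have h5 := h4.mul_const (w t)
      simpa using h5
  rw [integral_zero] at hlim
  refine squeeze_zero_norm ?_ hlim
  intro x
  have h := aux_bd w hw hr Φ hΦ (-x) (((-x : ℝ) : ℂ)) (by simp)
  exact h

end Pool.Agent.Helper5.PG
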