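import Mathlib
import Pool.Agent.Helper5.Pe.Defs

set_option autoImplicit false
open MeasureTheory Set Filter Topology

namespace Pool.Agent.Helper5.PG

theorem fun_congr (w : ℝ → ℝ) (hw : IsWeight w) (Φ : (ℝ → ℂ) → ℂ) (hΦ : IsFun w Φ) (g h : ℝ → ℂ)
    (hg : InL1 w g) (hgh : ∀ t : ℝ, 0 < t → g t = h t) : InL1 w h ∧ Φ g = Φ h := by
  have e1 : EqOn (fun t : ℝ => g t * (w t : ℂ)) (fun t : ℝ => h t * (w t : ℂ)) (Ioi 0) := by
    intro t ht
    simp only [hgh t ht]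
  have hh : InL1 w h := (integrableOn_congr_fun e1 measurableSet_Ioi).1 hg
  have e2 : EqOn (fun t : ℝ => (g - h) t * (w t : ℂ)) (fun _ : ℝ => (0 : ℂ)) (Ioi 0) := by
    intro t ht
    simp only [Pi.sub_apply, hgh t ht, sub_self, zero_mul]
  have hd : InL1 w (g - h) := (integrableOn_congr_fun e2 measurableSet_Ioi).2 integrableOn_zero
  refine ⟨hh, ?_⟩
  have h1 : Φ (h + (g - h)) = Φ h + Φ (g - h) := hΦ.add h (g - h) hh hd
  have h2 : h + (g - h) = g := by abel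
  have h3 : ‖Φ (g - h)‖ ≤ 0 := by
    refine (hΦ.bd _ hd).trans (le_of_eq ?_)
    have e3 : EqOn (fun t : ℝ => ‖(g - h) t‖ * w t) (fun _ : ℝ => (0 : ℝ)) (Ioi 0) := by
      intro t ht
      simp only [Pi.sub_apply, hgh t ht, sub_self, norm_zero, zero_mul]
    rw [setIntegral_congr_fun measurableSet_Ioi e3]
    simp
  have h4 : Φ (g - h) = 0 := norm_le_zero_iff.1 h3
  rw [h2, h4, add_zero] at h1
  exact h1

end Pool.Agent.Helper5.PG
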