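import Mathlib
import Pool.Agent.Helper5.Pe.Defs

set_option autoImplicit false
open MeasureTheory Set Filter Topology

namespace Pool.Agent.Helper5.PG

/-- the space `L¹(0,∞)` -/
noncomputable abbrev hbE := Lp ℂ 1 ((volume : Measure ℝ).restrict (Ioi 0))

open Classical in
noncomputable def hbT (w : ℝ → ℝ) (g : ℝ → ℂ) : hbE :=
  if hg : Integrable (fun t : ℝ => g t * (w t : ℂ)) (volume.restrict (Ioi 0)) then
    Integrable.toL1 (fun t : ℝ => g t * (w t : ℂ)) hg else 0

theorem hbT_eq (w : ℝ → ℝ) (g : ℝ → ℂ)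
    (hg : Integrable (fun t : ℝ => g t * (w t : ℂ)) (volume.restrict (Ioi 0))) :
    hbT w g = Integrable.toL1 (fun t : ℝ => g t * (w t : ℂ)) hg := by
  unfold hbT
  rw [dif_pos hg]

theorem hb_inadd (w : ℝ → ℝ) (g h : ℝ → ℂ) (hg : InL1 w g) (hh : InL1 w h) : InL1 w (g + h) := by
  unfold InL1 IntegrableOn at *
  refine (hg.add hh).congr (Filter.Eventually.of_forall fun t => ?_)
  simp only [Pi.add_apply]
  ring

theorem hb_insmul (w : ℝ → ℝ) (a : ℂ) (g : ℝ → ℂ) (hg : InL1 w g) : InL1 w (a • g) := by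
  unfold InL1 IntegrableOn at *
  refine (hg.const_mul a).congr (Filter.Eventually.of_forall fun t => ?_)
  simp only [Pi.smul_apply, smul_eq_mul]
  ring

theorem hbT_add (w : ℝ → ℝ) (g h : ℝ → ℂ) (hg : InL1 w g) (hh : InL1 w h) :
    hbT w (g + h) = hbT w g + hbT w h := by
  have h3 := hb_inadd w g h hg hh
  unfold InL1 IntegrableOn at *
  rw [hbT_eq w g hg, hbT_eq w h hh, hbT_eq w (g + h) h3, ← Integrable.toL1_add _ _ hg hh]
  rw [Integrable.toL1_eq_toL1_iff]
  refine Filter.Eventually.of_forall fun t => ?_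
  simp only [Pi.add_apply]
  ring

theorem hbT_smul (w : ℝ → ℝ) (a : ℂ) (g : ℝ → ℂ) (hg : InL1 w g) :
    hbT w (a • g) = a • hbT w g := by
  have h3 := hb_insmul w a g hg
  unfold InL1 IntegrableOn at *
  rw [hbT_eq w g hg, hbT_eq w (a • g) h3, ← Integrable.toL1_smul _ hg]
  rw [Integrable.toL1_eq_toL1_iff]
  refine Filter.Eventually.of_forall fun t => ?_
  simp only [Pi.smul_apply, smul_eq_mul]
  ring

theorem hbT_norm (w : ℝ → ℝ) (hw : IsWeight w) (g : ℝ → ℂ) (hg : InL1 w g) :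
    ‖hbT w g‖ = ∫ t in Ioi (0:ℝ), ‖g t‖ * w t := by
  unfold InL1 IntegrableOn at hg
  rw [hbT_eq w g hg, L1.norm_of_fun_eq_integral_norm]
  refine setIntegral_congr_fun measurableSet_Ioi fun t ht => ?_
  have : 0 < w t := hw.pos t (le_of_lt ht)
  rw [norm_mul, Complex.norm_real, Real.norm_of_nonneg this.le]

theorem hb_insum (w : ℝ → ℝ) (F : ℕ → ℝ → ℂ) (hF : ∀ k, InL1 w (F k)) (c : ℕ → ℂ) (n : ℕ) :
    InL1 w (fun t => ∑ k ∈ Finset.range n, c k * F k t) ∧
    hbT w (fun t => ∑ k ∈ Finset.range n, c k * F k t) = ∑ k ∈ Finset.range n, c k • hbT w (F k) := by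
  induction n with
  | zero =>
    have h0 : InL1 w (fun t => ∑ k ∈ Finset.range 0, c k * F k t) := by
      have := hb_insmul w 0 (F 0) (hF 0)
      convert this using 1
      funext t; simp
    refine ⟨h0, ?_⟩
    have h1 := hbT_smul w 0 (F 0) (hF 0)
    have h2 : (fun t : ℝ => ∑ k ∈ Finset.range 0, c k * F k t) = (0 : ℂ) • F 0 := by
      funext t; simp
    rw [h2, h1]
    simp
  | succ n ih =>
    have h2 : (fun t : ℝ => ∑ k ∈ Finset.range (n+1), c k * F k t) =
        (fun t : ℝ => ∑ k ∈ Finset.range n, c k * F k t) + c n • F n := by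
      funext t
      simp [Finset.sum_range_succ]
    rw [h2]
    refine ⟨hb_inadd w _ _ ih.1 (hb_insmul w _ _ (hF n)), ?_⟩
    rw [hbT_add w _ _ ih.1 (hb_insmul w _ _ (hF n)), ih.2, hbT_smul w _ _ (hF n), Finset.sum_range_succ]



theorem hb_fun (w : ℝ → ℝ) (hw : IsWeight w) (f : ℝ → ℂ) (hall : ∀ k, InL1 w (cpow f k))
    (hnot : ¬ IsPolyGen w f) :
    ∃ Φ : (ℝ → ℂ) → ℂ, IsFun w Φ ∧ (∀ k, Φ (cpow f k) = 0) ∧ ∃ h, InL1 w h ∧ Φ h ≠ 0 := by
  have hf : InL1 w f := hall 0
  unfold IsPolyGen at hnot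
  push Not at hnot
  obtain ⟨h, hh, ε, hε, hn⟩ := hnot hf
  let S0 : Submodule ℂ hbE := Submodule.span ℂ (Set.range fun k => hbT w (cpow f k))
  let S : Submodule ℂ hbE := S0.topologicalClosure
  have hScl : IsClosed (S : Set hbE) := Submodule.isClosed_topologicalClosure _
  have hTh : hbT w h ∉ S := by
    intro hmem
    have h1 : hbT w h ∈ closure (S0 : Set hbE) := hmem
    rw [Metric.mem_closure_iff] at h1
    obtain ⟨y, hy, hd⟩ := h1 ε hε
    have hy' : y ∈ Submodule.span ℂ (Set.range fun k => hbT w (cpow f k)) := hy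
    rw [Finsupp.mem_span_range_iff_exists_finsupp] at hy'
    obtain ⟨c, hc⟩ := hy'
    have hsup : c.support ⊆ Finset.range (c.support.sup id + 1) := by
      intro k hk
      rw [Finset.mem_range, Nat.lt_succ_iff]
      exact Finset.le_sup (f := id) hk
    have hc2 : ∑ k ∈ Finset.range (c.support.sup id + 1), c k • hbT w (cpow f k) = y := by
      rw [← hc]
      exact (Finsupp.sum_of_support_subset c hsup (fun i a => a • hbT w (cpow f i)) (by simp)).symm
    set n := c.support.sup id + 1 with hn'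
    obtain ⟨hi1, hi2⟩ := hb_insum w (cpow f) hall c n
    have h3 := hn n c
    have hneg := hb_insmul w (-1) _ hi1
    have hin := hb_inadd w _ _ hh hneg
    have h4 : hbT w (h + (-1 : ℂ) • (fun t => ∑ k ∈ Finset.range n, c k * cpow f k t)) = hbT w h - y := by
      rw [hbT_add w _ _ hh hneg, hbT_smul w _ _ hi1, hi2, hc2]
      simp [sub_eq_add_neg]
    have h5 := hbT_norm w hw _ hin
    rw [h4, ← dist_eq_norm] at h5
    have h6 : ∫⁻ t in Ioi (0:ℝ), ENNReal.ofReal (‖h t - ∑ k ∈ Finset.range n, c k * cpow f k t‖ * w t)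
        = ENNReal.ofReal (dist (hbT w h) y) := by
      rw [h5, ofReal_integral_eq_lintegral_ofReal]
      · refine setLIntegral_congr_fun measurableSet_Ioi fun t _ => ?_
        simp only [Pi.add_apply, Pi.smul_apply, smul_eq_mul]
        congr 3
        ring
      · have := hin
        unfold InL1 IntegrableOn at this
        refine this.norm.congr ?_
        rw [Filter.EventuallyEq, ae_restrict_iff' measurableSet_Ioi]
        refine Filter.Eventually.of_forall fun t ht => ?_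
        have hwt : 0 < w t := hw.pos t (le_of_lt ht)
        rw [norm_mul, Complex.norm_real, Real.norm_of_nonneg hwt.le]
      · rw [Filter.EventuallyLE, ae_restrict_iff' measurableSet_Ioi]
        refine Filter.Eventually.of_forall fun t ht => ?_
        have hwt : 0 < w t := hw.pos t (le_of_lt ht)
        exact mul_nonneg (norm_nonneg _) hwt.le
    rw [h6] at h3
    rw [ENNReal.ofReal_le_ofReal_iff dist_nonneg] at h3
    linarith
  have : IsClosed (S : Set hbE) := hScl
  have hq : (S.mkQ (hbT w h)) ≠ 0 := by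
    rw [Submodule.mkQ_apply, Ne, Submodule.Quotient.mk_eq_zero]
    exact hTh
  obtain ⟨G, hG1, hG2⟩ := exists_dual_vector ℂ (S.mkQ (hbT w h)) (norm_ne_zero_iff.2 hq)
  refine ⟨fun g => G (S.mkQ (hbT w g)), ⟨?_, ?_, ?_⟩, ?_, h, hh, ?_⟩
  · intro g k hg hk
    rw [hbT_add w g k hg hk, map_add, map_add]
  · intro a g hg
    rw [hbT_smul w a g hg, map_smul, map_smul, smul_eq_mul]
  · intro g hg
    rw [← hbT_norm w hw g hg]
    calc ‖G (S.mkQ (hbT w g))‖ ≤ ‖G‖ * ‖S.mkQ (hbT w g)‖ := G.le_opNorm _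
      _ = ‖S.mkQ (hbT w g)‖ := by rw [hG1, one_mul]
      _ ≤ ‖hbT w g‖ := Submodule.Quotient.norm_mk_le _ _
  · intro k
    have : S.mkQ (hbT w (cpow f k)) = 0 := by
      rw [Submodule.mkQ_apply, Submodule.Quotient.mk_eq_zero]
      exact Submodule.le_topologicalClosure _ (Submodule.subset_span ⟨k, rfl⟩)
    show G (S.mkQ (hbT w (cpow f k))) = 0
    rw [this, map_zero]
  · show G (S.mkQ (hbT w h)) ≠ 0
    rw [hG2]
    have : ‖S.mkQ (hbT w h)‖ ≠ 0 := norm_ne_zero_iff.2 hq
    exact fun h0 => this (Complex.ofReal_eq_zero.1 h0)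

end Pool.Agent.Helper5.PG
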