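import Mathlib
import Pool.Agent.Helper5.Pe.Defs

set_option autoImplicit false
open MeasureTheory Set Filter Topology

namespace Pool.Agent.Helper5.PG

theorem liou (L : ℂ → ℂ) (hL : Differentiable ℂ L) (A B : ℝ)
    (h1 : ∀ z : ℂ, z.re ≤ A → ‖L z‖ ≤ B) (h2 : ∀ z : ℂ, A ≤ z.re → ‖L z‖ ≤ B * (1 + ‖z‖))
    (h3 : Tendsto (fun x : ℝ => L ((-x : ℝ) : ℂ)) atTop (𝓝 0)) : ∀ z, L z = 0 := by
  have hB : 0 ≤ B := (norm_nonneg _).trans (h1 (A : ℂ) (by simp))
  have hb : ∀ z : ℂ, ‖L z‖ ≤ B * (1 + ‖z‖) := by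
    intro z
    rcases le_total z.re A with h | h
    · refine (h1 z h).trans ?_
      nlinarith [norm_nonneg z, mul_nonneg hB (norm_nonneg z)]
    · exact h2 z h
  set G : ℂ → ℂ := dslope L 0 with hG
  have hGd : Differentiable ℂ G := by
    have := (Complex.differentiableOn_dslope (f := L) (c := 0) (s := univ) univ_mem).mpr
      hL.differentiableOn
    exact differentiableOn_univ.mp this
  have hGz : ∀ z : ℂ, z * G z = L z - L 0 := by
    intro z
    have := sub_smul_dslope L 0 z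
    simpa using this
  have hbd : Bornology.IsBounded (range G) := by
    obtain ⟨C, hC⟩ := (isCompact_closedBall (0 : ℂ) 1).exists_bound_of_continuousOn
      hGd.continuous.continuousOn
    rw [isBounded_iff_forall_norm_le]
    refine ⟨max C (2 * B + ‖L 0‖), ?_⟩
    rintro _ ⟨z, rfl⟩
    by_cases hz : ‖z‖ ≤ 1
    · exact (hC z (by simpa using hz)).trans (le_max_left _ _)
    · push Not at hz
      refine le_trans ?_ (le_max_right _ _)
      have hz0 : 0 < ‖z‖ := by linarith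
      have h4 : ‖z‖ * ‖G z‖ ≤ B * (1 + ‖z‖) + ‖L 0‖ := by
        rw [← norm_mul, hGz z]
        exact (norm_sub_le _ _).trans (add_le_add (hb z) le_rfl)
      have h5 : B * (1 + ‖z‖) + ‖L 0‖ ≤ ‖z‖ * (2 * B + ‖L 0‖) := by
        nlinarith [norm_nonneg (L 0), mul_nonneg hB (sub_nonneg.mpr hz.le),
          mul_nonneg (norm_nonneg (L 0)) (sub_nonneg.mpr hz.le)]
      exact le_of_mul_le_mul_left (h4.trans h5) hz0
  have hconst : ∀ z, G z = G 0 := fun z => hGd.apply_eq_apply_of_bounded hbd z 0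
  have hlin : ∀ z, L z = L 0 + z * G 0 := by
    intro z
    have := hGz z
    rw [hconst z] at this
    linear_combination -this
  have hinv : Tendsto (fun x : ℝ => ((x : ℂ))⁻¹) atTop (𝓝 0) := by
    have h4 : Tendsto (fun x : ℝ => x⁻¹) atTop (𝓝 0) := tendsto_inv_atTop_zero
    have h5 := (Complex.continuous_ofReal.tendsto 0).comp h4
    rw [Complex.ofReal_zero] at h5
    refine h5.congr fun x => ?_
    simp
  have hκ : G 0 = 0 := by
    have h4 : Tendsto (fun x : ℝ => L ((-x : ℝ) : ℂ) * ((x : ℂ))⁻¹) atTop (𝓝 (0 * 0)) :=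
      h3.mul hinv
    have h5 : Tendsto (fun x : ℝ => L 0 * ((x : ℂ))⁻¹ - G 0) atTop (𝓝 (L 0 * 0 - G 0)) :=
      (hinv.const_mul _).sub_const _
    have h6 : (fun x : ℝ => L ((-x : ℝ) : ℂ) * ((x : ℂ))⁻¹) =ᶠ[atTop]
        fun x : ℝ => L 0 * ((x : ℂ))⁻¹ - G 0 := by
      filter_upwards [eventually_gt_atTop 0] with x hx
      have hx' : (x : ℂ) ≠ 0 := by exact_mod_cast hx.ne'
      rw [hlin]
      push_cast
      field_simp
      ring
    have h7 := tendsto_nhds_unique (h4.congr' h6) h5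
    simpa using h7.symm
  have hL0 : ∀ z, L z = L 0 := by
    intro z
    rw [hlin z, hκ]
    ring
  have hzero : L 0 = 0 := by
    have h4 : Tendsto (fun x : ℝ => L ((-x : ℝ) : ℂ)) atTop (𝓝 (L 0)) := by
      simp only [hL0]
      rw [← hL0 0]
      exact tendsto_const_nhds
    exact tendsto_nhds_unique h4 h3
  intro z
  rw [hL0 z, hzero]

end Pool.Agent.Helper5.PG
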