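import Mathlib
import Pool.Agent.Helper5.Pe.Defs
import Pool.Agent.Helper5.Pe.CvEbd
import Pool.Agent.Helper5.Pe.CvAdd
import Pool.Agent.Helper5.Pe.CvComm
import Pool.Agent.Helper5.Pe.CvAssoc
import Pool.Agent.Helper5.Pe.Inl1OfEbd
import Pool.Agent.Helper5.Pe.ExpInt
import Pool.Agent.Helper5.Pe.CpowEbd

set_option autoImplicit false
open MeasureTheory Set Filter Topology

namespace Pool.Agent.Helper5.PG

theorem EBd.mono' {C m C' m' : ℝ} {f : ℝ → ℂ} (hf : EBd C m f) (hC : C ≤ C') (hC' : 0 ≤ C')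
    (hm : m ≤ m') : EBd C' m' f where
  meas := hf.meas
  zero := hf.zero
  bd := fun t ht => by
    calc ‖f t‖ ≤ C * Real.exp (m * t) := hf.bd t ht
      _ ≤ C' * Real.exp (m * t) := mul_le_mul_of_nonneg_right hC (Real.exp_pos _).le
      _ ≤ C' * Real.exp (m' * t) :=
        mul_le_mul_of_nonneg_left (Real.exp_le_exp.2 (mul_le_mul_of_nonneg_right hm ht.le)) hC'

theorem EBd.csmul {C m : ℝ} {f : ℝ → ℂ} (hf : EBd C m f) (μ : ℂ) : EBd (‖μ‖ * C) m (μ • f) where
  meas := hf.meas.const_smul μ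
  zero := fun t ht => by simp [hf.zero t ht]
  bd := fun t ht => by
    rw [Pi.smul_apply, norm_smul, mul_assoc]
    exact mul_le_mul_of_nonneg_left (hf.bd t ht) (norm_nonneg _)

theorem cv_csmul (μ : ℂ) (f g : ℝ → ℂ) : cv f (μ • g) = μ • cv f g := by
  funext t
  simp only [cv, Pi.smul_apply, smul_eq_mul]
  rw [← intervalIntegral.integral_const_mul]
  congr 1
  funext s
  ring

/-- iterates of `cv f` applied to `R` -/
noncomputable def TT (f R : ℝ → ℂ) : ℕ → ℝ → ℂ
  | 0 => R
  | (n + 1) => cv f (TT f R n)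

theorem TT_ebd (C D m : ℝ) (hC : 0 ≤ C) (hD : 0 ≤ D) (f R : ℝ → ℂ) (hf : EBd C m f)
    (hR : EBd D m R) (n : ℕ) : EBd (C ^ n * D) (m + n) (TT f R n) := by
  induction n with
  | zero => simpa [TT] using hR
  | succ n ih =>
    have h := (cv_ebd C (C ^ n * D) (m + n) hC (mul_nonneg (pow_nonneg hC n) hD) f (TT f R n)
      (hf.mono' le_rfl hC (by simp)) ih).2
    have e1 : C ^ (n + 1) * D = C * (C ^ n * D) := by ring
    have e2 : m + ((n + 1 : ℕ) : ℝ) = m + n + 1 := by push_cast; ring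
    rw [e1, e2]
    exact h

theorem TT_bd (C D m : ℝ) (hC : 0 ≤ C) (hD : 0 ≤ D) (f R : ℝ → ℂ) (hf : EBd C m f)
    (hR : EBd D m R) (n : ℕ) (t : ℝ) (ht : 0 < t) :
    ‖TT f R n t‖ ≤ C ^ n * D * (t ^ n / n.factorial) * Real.exp (m * t) := by
  induction n generalizing t with
  | zero => simpa [TT] using hR.bd t ht
  | succ n ih =>
    have h1 : ‖TT f R (n + 1) t‖ ≤ ∫ s in (0:ℝ)..t,
        (C ^ (n + 1) * D * Real.exp (m * t) / n.factorial) * s ^ n := by
      simp only [TT, cv]
      apply intervalIntegral.norm_integral_le_of_norm_le ht.le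
      · refine Filter.Eventually.of_forall fun s hs => ?_
        rw [norm_mul]
        have hs0 : 0 < s := hs.1
        rcases hs.2.lt_or_eq with hst | hst
        · have a1 := hf.bd (t - s) (by linarith)
          have a2 := ih s hs0
          calc ‖f (t - s)‖ * ‖TT f R n s‖ ≤ (C * Real.exp (m * (t - s))) *
              (C ^ n * D * (s ^ n / n.factorial) * Real.exp (m * s)) :=
                mul_le_mul a1 a2 (norm_nonneg _) (mul_nonneg hC (Real.exp_pos _).le)
            _ = (C ^ (n + 1) * D / n.factorial) * s ^ n *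
                (Real.exp (m * (t - s)) * Real.exp (m * s)) := by ring
            _ = (C ^ (n + 1) * D * Real.exp (m * t) / n.factorial) * s ^ n := by
                rw [← Real.exp_add]
                have : m * (t - s) + m * s = m * t := by ring
                rw [this]; ring
        · have : f (t - s) = 0 := hf.zero _ (by rw [hst]; simp)
          rw [this, norm_zero, zero_mul]
          positivity
      · exact (continuous_const.mul (continuous_pow n)).intervalIntegrable _ _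
    refine h1.trans (le_of_eq ?_)
    rw [intervalIntegral.integral_const_mul, integral_pow]
    rw [Nat.factorial_succ]
    have hn : (n.factorial : ℝ) ≠ 0 := by positivity
    have hn' : ((n : ℝ) + 1) ≠ 0 := by positivity
    push_cast
    field_simp
    simp

theorem cpow_inl1 (w : ℝ → ℝ) (hw : IsWeight w) (hr : IsRadical w) (C m : ℝ) (f : ℝ → ℂ)
    (hf : EBd C m f) (k : ℕ) : InL1 w (cpow f k) := by
  obtain ⟨C', m', hC', h⟩ := cpow_ebd C m f hf k
  exact (inl1_of_ebd w hw hr C' m' hC' _ h).1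

theorem sum_zero (w : ℝ → ℝ) (hw : IsWeight w) (hr : IsRadical w) (Φ : (ℝ → ℂ) → ℂ)
    (hΦ : IsFun w Φ) (C m D m' : ℝ) (f R : ℝ → ℂ) (hf : EBd C m f) (hR : EBd D m' R) (μ : ℂ)
    (hrel : R = f + μ • cv f R) (hk : ∀ k, Φ (cpow f k) = 0) : Φ R = 0 := by
  -- common constants
  obtain ⟨C₁, hC₁, hCC⟩ : ∃ C₁ : ℝ, 0 ≤ C₁ ∧ C ≤ C₁ := ⟨max C 0, le_max_right _ _, le_max_left _ _⟩
  obtain ⟨D₁, hD₁, hDD⟩ : ∃ D₁ : ℝ, 0 ≤ D₁ ∧ D ≤ D₁ := ⟨max D 0, le_max_right _ _, le_max_left _ _⟩
  obtain ⟨M, hM, hM'⟩ : ∃ M : ℝ, m ≤ M ∧ m' ≤ M := ⟨max m m', le_max_left _ _, le_max_right _ _⟩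
  have hf1 : EBd C₁ M f := hf.mono' hCC hC₁ hM
  have hR1 : EBd D₁ M R := hR.mono' hDD hD₁ hM'
  have hT : ∀ n : ℕ, EBd (C₁ ^ n * D₁) (M + n) (TT f R n) := TT_ebd C₁ D₁ M hC₁ hD₁ f R hf1 hR1
  have hTb := TT_bd C₁ D₁ M hC₁ hD₁ f R hf1 hR1
  have hTI : ∀ n : ℕ, InL1 w (TT f R n) := fun n =>
    (inl1_of_ebd w hw hr _ _ (mul_nonneg (pow_nonneg hC₁ n) hD₁) _ (hT n)).1
  have hrec : ∀ n, TT f R n = cpow f n + μ • TT f R (n + 1) := by
    intro n
    induction n with
    | zero => exact hrel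
    | succ n ih =>
      change cv f (TT f R n) = cv f (cpow f n) + μ • cv f (TT f R (n + 1))
      conv_lhs => rw [ih]
      obtain ⟨C', mm, hC', hc⟩ := cpow_ebd C m f hf n
      have hs := (hT (n + 1)).csmul μ
      have hpos1 : 0 ≤ ‖μ‖ * (C₁ ^ (n + 1) * D₁) :=
        mul_nonneg (norm_nonneg _) (mul_nonneg (pow_nonneg hC₁ _) hD₁)
      obtain ⟨K, hK⟩ : ∃ K : ℝ, K = C₁ + C' + ‖μ‖ * (C₁ ^ (n + 1) * D₁) := ⟨_, rfl⟩
      obtain ⟨L, hL1, hL2, hL3⟩ : ∃ L : ℝ, M ≤ L ∧ mm ≤ L ∧ M + ((n + 1 : ℕ) : ℝ) ≤ L :=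
        ⟨max M (max mm (M + ((n + 1 : ℕ) : ℝ))), le_max_left _ _,
          (le_max_left _ _).trans (le_max_right _ _), (le_max_right _ _).trans (le_max_right _ _)⟩
      have hK0 : 0 ≤ K := by rw [hK]; positivity
      rw [cv_add K L f (cpow f n) (μ • TT f R (n + 1))
        (hf1.mono' (by rw [hK]; linarith) hK0 hL1) (hc.mono' (by rw [hK]; linarith) hK0 hL2)
        (hs.mono' (by rw [hK]; linarith) hK0 hL3), cv_csmul]
  have hsm : ∀ n, InL1 w (μ • TT f R n) := by
    intro n
    have h := (hTI n).const_mul μ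
    unfold InL1
    refine h.congr (Filter.Eventually.of_forall fun t => ?_)
    simp only [Pi.smul_apply, smul_eq_mul]
    ring
  have hΦn : ∀ n, Φ R = μ ^ n * Φ (TT f R n) := by
    intro n
    induction n with
    | zero => simp [TT]
    | succ n ih =>
      rw [ih, hrec n, hΦ.add _ _ (cpow_inl1 w hw hr C m f hf n) (hsm (n + 1)), hk n,
        hΦ.smul μ _ (hTI (n + 1))]
      rw [show TT f R (n + 1) = TT f R (n + 1) from rfl]
      ring
  -- the dominated sequence
  let F : ℕ → ℝ → ℝ := fun n t => (‖μ‖ * C₁ * t) ^ n / n.factorial * (Real.exp (M * t) * w t)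
  have hbound : ∀ n, ‖Φ R‖ ≤ D₁ * ∫ t in Ioi (0:ℝ), F n t := by
    intro n
    have hi : IntegrableOn (F n) (Ioi 0) := by
      have h := (exp_int w hw hr n M).const_mul ((‖μ‖ * C₁) ^ n / n.factorial)
      refine h.congr (Filter.Eventually.of_forall fun t => ?_)
      simp only [F, mul_pow]
      ring
    have hb := hΦ.bd _ (hTI n)
    have hm : ∫ t in Ioi (0:ℝ), ‖TT f R n t‖ * w t ≤
        ∫ t in Ioi (0:ℝ), C₁ ^ n * D₁ * (t ^ n / n.factorial) * Real.exp (M * t) * w t := by
      apply integral_mono_of_nonneg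
      · refine (ae_restrict_iff' measurableSet_Ioi).2 (Filter.Eventually.of_forall fun t ht => ?_)
        exact mul_nonneg (norm_nonneg _) (hw.pos t (le_of_lt ht)).le
      · have h := (exp_int w hw hr n M).const_mul (C₁ ^ n * D₁ / n.factorial)
        refine h.congr (Filter.Eventually.of_forall fun t => ?_)
        simp only
        ring
      · refine (ae_restrict_iff' measurableSet_Ioi).2 (Filter.Eventually.of_forall fun t ht => ?_)
        exact mul_le_mul_of_nonneg_right (hTb n t ht) (hw.pos t (le_of_lt ht)).le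
    calc ‖Φ R‖ = ‖μ‖ ^ n * ‖Φ (TT f R n)‖ := by rw [hΦn n, norm_mul, norm_pow]
      _ ≤ ‖μ‖ ^ n * ∫ t in Ioi (0:ℝ),
          C₁ ^ n * D₁ * (t ^ n / n.factorial) * Real.exp (M * t) * w t :=
            mul_le_mul_of_nonneg_left (hb.trans hm) (pow_nonneg (norm_nonneg _) _)
      _ = D₁ * ∫ t in Ioi (0:ℝ), F n t := by
            rw [← integral_const_mul, ← integral_const_mul]
            congr 1
            funext t
            simp only [F, mul_pow]
            ring
  have hlim : Tendsto (fun n => ∫ t in Ioi (0:ℝ), F n t) atTop (𝓝 (∫ t in Ioi (0:ℝ), (0:ℝ))) := by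
    have hdom : IntegrableOn (fun t : ℝ => Real.exp ((‖μ‖ * C₁ + M) * t) * w t) (Ioi 0) := by
      refine (exp_int w hw hr 0 (‖μ‖ * C₁ + M)).congr (Filter.Eventually.of_forall fun t => ?_)
      simp
    apply tendsto_integral_of_dominated_convergence
      (fun t : ℝ => Real.exp ((‖μ‖ * C₁ + M) * t) * w t)
    · intro n
      have h := (exp_int w hw hr n M).const_mul ((‖μ‖ * C₁) ^ n / n.factorial)
      refine (h.congr (Filter.Eventually.of_forall fun t => ?_)).aestronglyMeasurable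
      simp only [F, mul_pow]
      ring
    · exact hdom
    · intro n
      refine (ae_restrict_iff' measurableSet_Ioi).2 (Filter.Eventually.of_forall fun t ht => ?_)
      have ht0 : (0:ℝ) < t := ht
      have hx : 0 ≤ ‖μ‖ * C₁ * t := by positivity
      have hw0 := (hw.pos t ht0.le).le
      have hF0 : 0 ≤ F n t := by
        simp only [F]; positivity
      rw [Real.norm_of_nonneg hF0]
      have h1 : (‖μ‖ * C₁ * t) ^ n / n.factorial ≤ Real.exp (‖μ‖ * C₁ * t) :=
        Real.pow_div_factorial_le_exp _ hx n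
      calc F n t ≤ Real.exp (‖μ‖ * C₁ * t) * (Real.exp (M * t) * w t) :=
            mul_le_mul_of_nonneg_right h1 (by positivity)
        _ = Real.exp ((‖μ‖ * C₁ + M) * t) * w t := by
            rw [← mul_assoc, ← Real.exp_add]; ring_nf
    · refine Filter.Eventually.of_forall fun t => ?_
      have h := (FloorSemiring.tendsto_pow_div_factorial_atTop (‖μ‖ * C₁ * t)).mul_const
        (Real.exp (M * t) * w t)
      simpa [F] using h
  have h0 : ‖Φ R‖ ≤ 0 := by
    have h2 := hlim.const_mul D₁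
    simp only [integral_zero, mul_zero] at h2
    exact ge_of_tendsto' h2 hbound
  exact norm_le_zero_iff.1 h0

end Pool.Agent.Helper5.PG
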