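import Mathlib
import Pool.Agent.Helper5.Pe.Defs
import Pool.Agent.Helper5.Pe.Ring
import Pool.Agent.Helper5.Pe.Volterra
import Pool.Agent.Helper5.Pe.EeConv
import Pool.Agent.Helper5.Pe.Alg1
import Pool.Agent.Helper5.Pe.HbFun
import Pool.Agent.Helper5.Pe.ExpInt
import Pool.Agent.Helper5.Pe.Inl1OfEbd
import Pool.Agent.Helper5.Pe.FunCongr
import Pool.Agent.Helper5.Pe.EntDeriv
import Pool.Agent.Helper5.Pe.EntSmall
import Pool.Agent.Helper5.Pe.ZeroOfExp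
import Pool.Agent.Helper5.Pe.SumZero
import Pool.Agent.Helper5.Pe.Liou
import Pool.Agent.Helper5.Pe.CpowEbd

set_option autoImplicit false
open MeasureTheory Set Filter Topology

namespace Pool.Agent.Helper5.PG

theorem main1_cv_smul (f X : ℝ → ℂ) (c : ℂ) : cv f (c • X) = c • cv f X := by
  funext t
  simp only [cv, Pi.smul_apply, smul_eq_mul]
  rw [← intervalIntegral.integral_const_mul]
  congr 1
  funext s
  ring

theorem main1_est (w : ℝ → ℝ) (hw : IsWeight w) (hr : IsRadical w) (C m : ℝ) (hC : 0 ≤ C)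
    (hm : 0 ≤ m) (f ρ : ℝ → ℂ) (hf : EBd C m f) (hρ : EBd C m ρ) (c ρ0 : ℂ) (hc : c ≠ 0)
    (hrel : f + ρ0 • cv uu f + cv uu (cv ρ f) = c • uu)
    (Φ : (ℝ → ℂ) → ℂ) (hΦ : IsFun w Φ) (hk : ∀ k, Φ (cpow f k) = 0)
    (z : ℂ) (hz : m + 3 * C + 1 ≤ z.re) :
    ‖Φ (fun t : ℝ => Complex.exp (z * t))‖ ≤
      2 * C * ∫ t in Ioi (0:ℝ), Real.exp ((m + C) * t) * w t := by
  have hI0 : 0 ≤ ∫ t in Ioi (0:ℝ), Real.exp ((m + C) * t) * w t := by
    apply setIntegral_nonneg measurableSet_Ioi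
    intro t ht
    exact mul_nonneg (Real.exp_pos _).le (hw.pos t (le_of_lt ht)).le
  set I := ∫ t in Ioi (0:ℝ), Real.exp ((m + C) * t) * w t with hI
  obtain ⟨hq1, -, hconv⟩ := ee_conv C m hC ρ hρ z (by linarith)
  have hq : EBd C m (JJ z ρ) := hq1.mono (div_le_self hC (by linarith)) le_rfl
  obtain ⟨Q, hQ, hQe⟩ := volterra C m hC (JJ z ρ) hq
  obtain ⟨hJ, hlapQ, hconvQ⟩ := ee_conv C (m + C) hC Q hQ z (by linarith)
  have hhalf : C / (z.re - (m + C)) ≤ 1 / 2 := by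
    rw [div_le_iff₀ (by linarith)]
    linarith
  have hleC : C / (z.re - (m + C)) ≤ C := div_le_self hC (by linarith)
  have halg := alg1 C (m + C) f ρ (JJ z ρ) Q (hf.mono le_rfl (by linarith))
    (hρ.mono le_rfl (by linarith)) (hq.mono le_rfl (by linarith)) hQ c ρ0 (lap ρ z) z
    hrel hconv hQe
  set X : ℝ → ℂ := ee z - cv (ee z) Q with hX
  have hX2 : X = (1 - lap Q z) • ee z + (-1 : ℂ) • JJ z Q := by
    rw [hX, hconvQ]
    module
  have hXb := ((ee_ebd z).smul (1 - lap Q z)).add (hJ.smul (-1 : ℂ))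
  rw [← hX2] at hXb
  have hRb := hXb.smul c
  have hrel' : c • X = f + ((z + ρ0 + lap ρ z) / c) • cv f (c • X) := by
    rw [main1_cv_smul, smul_smul, div_mul_cancel₀ _ hc]
    exact halg
  have hR0 := sum_zero w hw hr Φ hΦ C m _ _ f (c • X) hf hRb _ hrel' hk
  have inE := (inl1_of_ebd w hw hr 1 z.re zero_le_one _ (ee_ebd z)).1
  have hJn := hJ.nonneg
  obtain ⟨inJ, bdJ⟩ := inl1_of_ebd w hw hr _ _ hJn _ hJ
  have inX := (inl1_of_ebd w hw hr _ _ hXb.nonneg _ hXb).1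
  rw [hΦ.smul c X inX] at hR0
  have hX0 : Φ X = 0 := (mul_eq_zero.1 hR0).resolve_left hc
  have inE' := (inl1_of_ebd w hw hr _ _ ((ee_ebd z).smul (1 - lap Q z)).nonneg _
    ((ee_ebd z).smul (1 - lap Q z))).1
  have inJ' := (inl1_of_ebd w hw hr _ _ (hJ.smul (-1 : ℂ)).nonneg _ (hJ.smul (-1 : ℂ))).1
  rw [hX2, hΦ.add _ _ inE' inJ', hΦ.smul _ _ inE, hΦ.smul _ _ inJ] at hX0
  have hE : (1 - lap Q z) * Φ (ee z) = Φ (JJ z Q) := by linear_combination hX0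
  have hnJ : ‖Φ (JJ z Q)‖ ≤ C * I := by
    refine (hΦ.bd _ inJ).trans (bdJ.trans ?_)
    exact mul_le_mul_of_nonneg_right hleC hI0
  have hn1 : 1 / 2 ≤ ‖1 - lap Q z‖ := by
    have h1 := norm_sub_norm_le (1 : ℂ) (lap Q z)
    rw [norm_one] at h1
    linarith [hlapQ.trans hhalf]
  have hEL : Φ (ee z) = Φ (fun t : ℝ => Complex.exp (z * t)) :=
    (fun_congr w hw Φ hΦ (ee z) (fun t : ℝ => Complex.exp (z * t)) inE
      (fun t ht => if_pos ht)).2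
  rw [← hEL]
  have h2 : ‖1 - lap Q z‖ * ‖Φ (ee z)‖ ≤ C * I := by
    rw [← norm_mul, hE]
    exact hnJ
  have h3 : 1 / 2 * ‖Φ (ee z)‖ ≤ ‖1 - lap Q z‖ * ‖Φ (ee z)‖ :=
    mul_le_mul_of_nonneg_right hn1 (norm_nonneg _)
  linarith

theorem main1 (w : ℝ → ℝ) (hw : IsWeight w) (hr : IsRadical w) (C m : ℝ) (hC : 0 ≤ C) (hm : 0 ≤ m)
    (f ρ : ℝ → ℂ) (hf : EBd C m f) (hρ : EBd C m ρ) (c ρ0 : ℂ) (hc : c ≠ 0)
    (hrel : f + ρ0 • cv uu f + cv uu (cv ρ f) = c • uu) : IsPolyGen w f := by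
  by_contra hnot
  have hall : ∀ k, InL1 w (cpow f k) := by
    intro k
    obtain ⟨C', m', hC', h⟩ := cpow_ebd C m f hf k
    exact (inl1_of_ebd w hw hr C' m' hC' _ h).1
  obtain ⟨Φ, hΦ, hk, h, hh, hne⟩ := hb_fun w hw f hall hnot
  apply hne
  refine zero_of_exp w hw hr Φ hΦ ?_ h hh
  obtain ⟨hs1, hs2⟩ := ent_small w hw hr Φ hΦ
  have hI0 : 0 ≤ ∫ t in Ioi (0:ℝ), Real.exp ((m + C) * t) * w t := by
    apply setIntegral_nonneg measurableSet_Ioi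
    intro t ht
    exact mul_nonneg (Real.exp_pos _).le (hw.pos t (le_of_lt ht)).le
  have hA0 : 0 ≤ ∫ t in Ioi (0:ℝ), Real.exp ((m + 3 * C + 1) * t) * w t := by
    apply setIntegral_nonneg measurableSet_Ioi
    intro t ht
    exact mul_nonneg (Real.exp_pos _).le (hw.pos t (le_of_lt ht)).le
  have hCI : 0 ≤ 2 * C * ∫ t in Ioi (0:ℝ), Real.exp ((m + C) * t) * w t :=
    mul_nonneg (by linarith) hI0
  refine liou (fun z => Φ (fun t : ℝ => Complex.exp (z * t))) ?_ (m + 3 * C + 1)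
    ((∫ t in Ioi (0:ℝ), Real.exp ((m + 3 * C + 1) * t) * w t) +
      2 * C * ∫ t in Ioi (0:ℝ), Real.exp ((m + C) * t) * w t) ?_ ?_ ?_
  · intro z
    have := (ent_deriv w hw hr Φ hΦ 0 z).2
    simp only [pow_zero, one_mul] at this
    exact this.differentiableAt
  · intro z hz
    exact (hs1 _ z hz).trans (by linarith)
  · intro z hz
    refine (main1_est w hw hr C m hC hm f ρ hf hρ c ρ0 hc hrel Φ hΦ hk z hz).trans ?_
    have hz0 := norm_nonneg z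
    nlinarith [mul_nonneg (add_nonneg hA0 hCI) hz0]
  · exact hs2

end Pool.Agent.Helper5.PG
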