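import Mathlib
import Pool.Agent.Helper5.Pe.Defs

set_option autoImplicit false
open MeasureTheory Set Filter Topology

namespace Pool.Agent.Helper5.PG

theorem ring_two {A : Type*} [CommRing A] (u e em f ρ q Q r β ρ0 c z : A)
    (hu : IsUnit (1 - z * u)) (hu' : IsUnit (1 + (z + β) * u))
    (ha : f + β * (u * f) + ρ0 * (u * (u * f)) + u * (u * (ρ * f)) = c * (u * u))
    (hb : e = u + z * (u * e)) (hb' : em = u - (z + β) * (u * em))
    (hc : q = e * ρ - r * e) (hd : Q + (em * q) * Q = em * q) :
    c * (e * (em - em * Q)) = f + (z * z + β * z + ρ0 + r) * (f * (e * (em - em * Q))) := by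
  have h1 : (1 - z * u) * e = u := by linear_combination hb
  have h2 : (1 + (z + β) * u) * em = u := by linear_combination hb'
  have h3 : (1 + em * q) * (1 - Q) = 1 := by linear_combination -hd
  have h4 : ((1 - z * u) * (1 + (z + β) * u)) * (e * em) = u * u := by
    calc ((1 - z * u) * (1 + (z + β) * u)) * (e * em)
        = ((1 - z * u) * e) * ((1 + (z + β) * u) * em) := by ring
      _ = u * u := by rw [h1, h2]
  have h5 : u * u * (ρ - r) = ((1 - z * u) * (1 + (z + β) * u)) * (em * q) := by
    calc u * u * (ρ - r) = u * (u * (ρ - r)) := by ring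
      _ = ((1 + (z + β) * u) * em) * (((1 - z * u) * e) * (ρ - r)) := by rw [h1, h2]
      _ = ((1 - z * u) * (1 + (z + β) * u)) * (em * (e * ρ - r * e)) := by ring
      _ = _ := by rw [hc]
  have h6 : 1 + β * u + ρ0 * (u * u) + u * u * ρ - (z * z + β * z + ρ0 + r) * (u * u) =
      ((1 - z * u) * (1 + (z + β) * u)) * (1 + em * q) := by
    calc 1 + β * u + ρ0 * (u * u) + u * u * ρ - (z * z + β * z + ρ0 + r) * (u * u)
        = (1 - z * u) * (1 + (z + β) * u) + u * u * (ρ - r) := by ring
      _ = _ := by rw [h5]; ring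
  have key : (1 - z * u) * ((1 + (z + β) * u) * (c * (e * (em - em * Q)) -
      (f + (z * z + β * z + ρ0 + r) * (f * (e * (em - em * Q)))))) = 0 := by
    calc (1 - z * u) * ((1 + (z + β) * u) * (c * (e * (em - em * Q)) -
          (f + (z * z + β * z + ρ0 + r) * (f * (e * (em - em * Q))))))
        = (c - (z * z + β * z + ρ0 + r) * f) *
            (((1 - z * u) * (1 + (z + β) * u)) * (e * em)) * (1 - Q) -
            ((1 - z * u) * (1 + (z + β) * u)) * f := by ring
      _ = (c * (u * u) - (z * z + β * z + ρ0 + r) * f * (u * u)) * (1 - Q) -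
            ((1 - z * u) * (1 + (z + β) * u)) * f := by rw [h4]; ring
      _ = (f * (1 + β * u + ρ0 * (u * u) + u * u * ρ -
            (z * z + β * z + ρ0 + r) * (u * u))) * (1 - Q) -
            ((1 - z * u) * (1 + (z + β) * u)) * f := by rw [← ha]; ring
      _ = f * ((1 - z * u) * (1 + (z + β) * u)) * ((1 + em * q) * (1 - Q)) -
            ((1 - z * u) * (1 + (z + β) * u)) * f := by rw [h6]; ring
      _ = 0 := by rw [h3]; ring
  have h7 := (hu.mul_right_eq_zero).1 key
  have h8 := (hu'.mul_right_eq_zero).1 h7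
  exact sub_eq_zero.1 h8

end Pool.Agent.Helper5.PG
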