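import Mathlib
import Pool.Agent.Helper5.Pe.Defs
import Pool.Agent.Helper5.Pe.Ring
import Pool.Agent.Helper5.Pe.CvComm
import Pool.Agent.Helper5.Pe.CvEbd
import Pool.Agent.Helper5.Pe.CvAssoc
import Pool.Agent.Helper5.Pe.CvAdd
import Pool.Agent.Helper5.Pe.Volterra
import Pool.Agent.Helper5.Pe.UuEe
import Pool.Agent.Helper5.Pe.RingTwo

set_option autoImplicit false
open MeasureTheory Set Filter Topology

namespace Pool.Agent.Helper5.PG

theorem alg2 (C m : ℝ) (f ρ q Q : ℝ → ℂ) (hf : EBd C m f) (hρ : EBd C m ρ) (hq : EBd C m q)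
    (hQ : EBd C m Q) (c β ρ0 r z : ℂ)
    (hrel : f + β • cv uu f + ρ0 • cv uu (cv uu f) + cv uu (cv uu (cv ρ f)) = c • cv uu uu)
    (h1 : cv (ee z) ρ = r • ee z + q)
    (h2 : Q + cv (cv (ee (-z - β)) q) Q = cv (ee (-z - β)) q) :
    c • cv (ee z) (ee (-z - β) - cv (ee (-z - β)) Q)
      = f + (z * z + β * z + ρ0 + r) •
          cv f (cv (ee z) (ee (-z - β) - cv (ee (-z - β)) Q)) := by
  obtain ⟨F, hF⟩ : ∃ F : EBs, F.1 = f := ⟨⟨f, C, m, hf⟩, rfl⟩
  obtain ⟨R, hR⟩ : ∃ F : EBs, F.1 = ρ := ⟨⟨ρ, C, m, hρ⟩, rfl⟩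
  obtain ⟨q', hq'⟩ : ∃ F : EBs, F.1 = q := ⟨⟨q, C, m, hq⟩, rfl⟩
  obtain ⟨Q', hQ'⟩ : ∃ F : EBs, F.1 = Q := ⟨⟨Q, C, m, hQ⟩, rfl⟩
  obtain ⟨U, hU⟩ : ∃ F : EBs, F.1 = uu := ⟨⟨uu, 1, 0, uu_ebd⟩, rfl⟩
  obtain ⟨E, hE⟩ : ∃ F : EBs, F.1 = ee z := ⟨⟨ee z, 1, _, ee_ebd z⟩, rfl⟩
  obtain ⟨M, hM⟩ : ∃ F : EBs, F.1 = ee (-z - β) := ⟨⟨ee (-z - β), 1, _, ee_ebd (-z - β)⟩, rfl⟩
  have a1 : F + β • (U * F) + ρ0 • (U * (U * F)) + U * (U * (R * F)) = c • (U * U) := by
    apply Subtype.ext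
    simp only [Submodule.coe_add, Submodule.coe_smul, EBs.mul_val, hF, hR, hU]
    exact hrel
  have a2 : E = U + z • (U * E) := by
    apply Subtype.ext
    simp only [Submodule.coe_add, Submodule.coe_smul, EBs.mul_val, hE, hU]
    exact uu_ee z
  have a3 : M = U - (z + β) • (U * M) := by
    apply Subtype.ext
    simp only [Submodule.coe_sub, Submodule.coe_smul, EBs.mul_val, hM, hU]
    have := uu_ee (-z - β)
    rw [show (-z - β) = -(z + β) by ring] at this ⊢
    rw [neg_smul, ← sub_eq_add_neg] at this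
    exact this
  have a4 : q' = E * R - r • E := by
    apply Subtype.ext
    simp only [Submodule.coe_sub, Submodule.coe_smul, EBs.mul_val, hE, hR, hq']
    rw [h1]; abel
  have a5 : Q' + (M * q') * Q' = M * q' := by
    apply Subtype.ext
    simp only [Submodule.coe_add, EBs.mul_val, hM, hQ', hq']
    exact h2
  have b1 := congrArg (Unitization.inr (R := ℂ)) a1
  have b2 := congrArg (Unitization.inr (R := ℂ)) a2
  have b3 := congrArg (Unitization.inr (R := ℂ)) a3
  have b4 := congrArg (Unitization.inr (R := ℂ)) a4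
  have b5 := congrArg (Unitization.inr (R := ℂ)) a5
  simp only [Unitization.inr_add, Unitization.inr_sub, Unitization.inr_smul, Unitization.inr_mul,
    Algebra.smul_def, map_add] at b1 b2 b3 b4 b5
  have c1 : IsUnit (1 - algebraMap ℂ (Unitization ℂ EBs) z * (U : Unitization ℂ EBs)) := by
    have := EBs.isUnit (-(z • U))
    rw [Unitization.inr_neg, Unitization.inr_smul, Algebra.smul_def, ← sub_eq_add_neg] at this
    exact this
  have c2 : IsUnit (1 + (algebraMap ℂ (Unitization ℂ EBs) z + algebraMap ℂ (Unitization ℂ EBs) β)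
      * (U : Unitization ℂ EBs)) := by
    have := EBs.isUnit ((z + β) • U)
    rw [Unitization.inr_smul, Algebra.smul_def, map_add] at this
    exact this
  have key := ring_two (A := Unitization ℂ EBs) U E M F R q' Q'
    (algebraMap ℂ _ r) (algebraMap ℂ _ β) (algebraMap ℂ _ ρ0) (algebraMap ℂ _ c)
    (algebraMap ℂ _ z) c1 c2 b1 b2 b3 b4 b5
  have key2 : Unitization.inr (R := ℂ) (c • (E * (M - M * Q'))) =
      Unitization.inr (R := ℂ) (F + (z * z + β * z + ρ0 + r) • (F * (E * (M - M * Q')))) := by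
    simp only [Unitization.inr_add, Unitization.inr_sub, Unitization.inr_smul, Unitization.inr_mul,
      Algebra.smul_def, map_add, map_mul]
    exact key
  have key3 := congrArg Subtype.val (Unitization.inr_injective key2)
  simp only [Submodule.coe_add, Submodule.coe_sub, Submodule.coe_smul, EBs.mul_val, hE, hM, hF,
    hQ'] at key3
  exact key3

end Pool.Agent.Helper5.PG
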