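import Mathlib
import Pool.Agent.Helper5.Pe.Defs
import Pool.Agent.Helper5.Pe.Ring
import Pool.Agent.Helper5.Pe.CvComm
import Pool.Agent.Helper5.Pe.CvEbd
import Pool.Agent.Helper5.Pe.CvAssoc
import Pool.Agent.Helper5.Pe.CvAdd
import Pool.Agent.Helper5.Pe.Volterra
import Pool.Agent.Helper5.Pe.UuEe

set_option autoImplicit false
open MeasureTheory Set Filter Topology

namespace Pool.Agent.Helper5.PG

theorem class1_alg {R : Type*} [NonUnitalCommRing R] [Module ℂ R] [IsScalarTower ℂ R R]
    [SMulCommClass ℂ R R] (u k G Q f ρ : R) (c b : ℂ) (hc : c ≠ 0)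
    (hf : f = c • u + b • (u*u) + u*u*k) (hG : c • G = b • u + u*k) (hQ : Q + G*Q = G)
    (hρ : c • ρ = b • Q - k + k*Q) : f + (-b/c) • (u*f) + u*(ρ*f) = c • u := by
  apply Unitization.inr_injective (R := ℂ)
  have hf' := congrArg (Unitization.inr : R → Unitization ℂ R) hf
  have hG' := congrArg (Unitization.inr : R → Unitization ℂ R) hG
  have hQ' := congrArg (Unitization.inr : R → Unitization ℂ R) hQ
  have hρ' := congrArg (Unitization.inr : R → Unitization ℂ R) hρ
  simp only [Unitization.inr_add, Unitization.inr_mul, Unitization.inr_smul, Unitization.inr_sub,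
    Algebra.smul_def] at hf' hG' hQ' hρ' ⊢
  generalize (u : Unitization ℂ R) = U at *
  generalize (k : Unitization ℂ R) = K at *
  generalize (G : Unitization ℂ R) = G' at *
  generalize (Q : Unitization ℂ R) = Q' at *
  generalize (f : Unitization ℂ R) = F at *
  generalize (ρ : Unitization ℂ R) = P at *
  have hR0 : algebraMap ℂ (Unitization ℂ R) c * algebraMap ℂ (Unitization ℂ R) (-b/c) =
      - algebraMap ℂ (Unitization ℂ R) b := by
    rw [← map_mul, ← map_neg]
    congr 1
    field_simp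
  have hCi : algebraMap ℂ (Unitization ℂ R) (1/c) * algebraMap ℂ (Unitization ℂ R) c = 1 := by
    rw [← map_mul, one_div_mul_cancel hc, map_one]
  generalize algebraMap ℂ (Unitization ℂ R) (-b/c) = R0 at *
  generalize algebraMap ℂ (Unitization ℂ R) (1/c) = Ci at *
  generalize algebraMap ℂ (Unitization ℂ R) c = C at *
  generalize algebraMap ℂ (Unitization ℂ R) b = B at *
  have h1 : F = C * U * (1 + G') := by linear_combination hf' - U * hG'
  have h2 : (B * Q' - K + K * Q') * (1 + G') = B * G' - K := by linear_combination (B + K) * hQ'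
  have h3 : C * (F + R0 * (U * F) + U * (P * F)) = C * (C * U) := by
    have e1 : C * (F + R0 * (U * F) + U * (P * F)) =
        C * F - B * U * F + U * (B * Q' - K + K * Q') * F := by
      linear_combination (U * F) * hR0 + U * F * hρ'
    rw [e1, h1]
    linear_combination (C * U * U) * h2 + C * U * hG'
  linear_combination Ci * h3 - (F + R0 * (U * F) + U * (P * F) - C * U) * hCi

theorem class1 (C m : ℝ) (k : ℝ → ℂ) (hk : EBd C m k) (c b : ℂ) (hc : c ≠ 0) (f : ℝ → ℂ)
    (hf : ∀ t, f t = if 0 < t then c + b * t + ∫ s in (0:ℝ)..t, ((t - s : ℝ) : ℂ) * k s else 0) :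
    ∃ (C' m' : ℝ) (ρ0 : ℂ) (ρ : ℝ → ℂ), 0 ≤ C' ∧ 0 ≤ m' ∧ EBd C' m' f ∧ EBd C' m' ρ ∧
      f + ρ0 • cv uu f + cv uu (cv ρ f) = c • uu := by
  obtain ⟨uE, huE⟩ : ∃ uE : EBs, uE.1 = uu := ⟨⟨uu, 1, 0, uu_ebd⟩, rfl⟩
  obtain ⟨kE, hkE⟩ : ∃ kE : EBs, kE.1 = k := ⟨⟨k, C, m, hk⟩, rfl⟩
  obtain ⟨G, hG⟩ : ∃ G : EBs, G = (1 / c) • (b • uE + uE * kE) := ⟨_, rfl⟩
  obtain ⟨Q, hQ⟩ := EBs.quasi G
  obtain ⟨ρ, hρ⟩ : ∃ ρ : EBs, ρ = (1 / c) • (b • Q - kE + kE * Q) := ⟨_, rfl⟩
  obtain ⟨fE, hfE⟩ : ∃ fE : EBs, fE = c • uE + b • (uE * uE) + uE * uE * kE := ⟨_, rfl⟩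
  have huu0 : ∀ t : ℝ, t ≤ 0 → cv uu uu t = 0 := (cv_ebd 1 1 0 zero_le_one zero_le_one uu uu uu_ebd uu_ebd).2.zero
  have huu1 : ∀ t : ℝ, 0 < t → cv uu uu t = t := by
    intro t ht
    unfold cv
    have h1 : ∫ s in (0:ℝ)..t, uu (t - s) * uu s = ∫ s in (0:ℝ)..t, (1:ℂ) := by
      rw [intervalIntegral.integral_of_le ht.le, intervalIntegral.integral_of_le ht.le,
        MeasureTheory.integral_Ioc_eq_integral_Ioo, MeasureTheory.integral_Ioc_eq_integral_Ioo]
      refine MeasureTheory.setIntegral_congr_fun measurableSet_Ioo fun s hs => ?_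
      have h2 : 0 < s := hs.1
      have h3 : 0 < t - s := by linarith [hs.2]
      simp [uu, h2, hs.2]
    rw [h1]
    simp
  have hfE1 : fE.1 = f := by
    have e1 : fE.1 = c • uu + b • cv uu uu + cv (cv uu uu) k := by
      rw [hfE]
      simp only [Submodule.coe_add, Submodule.coe_smul, EBs.mul_val, huE, hkE]
    rw [e1]
    funext t
    rw [hf t]
    by_cases ht : 0 < t
    · rw [if_pos ht]
      simp only [Pi.add_apply, Pi.smul_apply, smul_eq_mul]
      rw [huu1 t ht]
      have e2 : uu t = 1 := by simp [uu, ht]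
      rw [e2, mul_one]
      congr 1
      unfold cv
      rw [intervalIntegral.integral_of_le ht.le, intervalIntegral.integral_of_le ht.le,
        MeasureTheory.integral_Ioc_eq_integral_Ioo, MeasureTheory.integral_Ioc_eq_integral_Ioo]
      refine MeasureTheory.setIntegral_congr_fun measurableSet_Ioo fun s hs => ?_
      have h3 : 0 < t - s := by linarith [hs.2]
      have h4 := huu1 (t - s) h3
      unfold cv at h4
      simp only [h4]
    · rw [if_neg ht]
      have ht' : t ≤ 0 := not_lt.mp ht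
      simp only [Pi.add_apply, Pi.smul_apply, smul_eq_mul]
      rw [huu0 t ht', uu_ebd.zero t ht']
      have e3 : cv (cv uu uu) k t = 0 := by
        obtain ⟨C3, m3, h3⟩ := (uE * uE * kE).2
        have := h3.zero t ht'
        have e4 : (uE * uE * kE).1 = cv (cv uu uu) k := by
          simp only [EBs.mul_val, huE, hkE]
        rw [e4] at this
        exact this
      rw [e3]
      simp
  have hcG : c • G = b • uE + uE * kE := by
    rw [hG, smul_smul, mul_one_div_cancel hc, one_smul]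
  have hcρ : c • ρ = b • Q - kE + kE * Q := by
    rw [hρ, smul_smul, mul_one_div_cancel hc, one_smul]
  have hmain := class1_alg uE kE G Q fE ρ c b hc hfE hcG hQ hcρ
  obtain ⟨C', m', hC', h1, h2, _⟩ := EBs.common fE ρ ρ
  refine ⟨C', max m' 0, -b / c, ρ.1, hC', le_max_right _ _, ?_, h2.mono le_rfl (le_max_left _ _), ?_⟩
  · rw [← hfE1]
    exact h1.mono le_rfl (le_max_left _ _)
  · have h5 := congrArg Subtype.val hmain
    simp only [Submodule.coe_add, Submodule.coe_smul, EBs.mul_val, huE, hfE1] at h5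
    exact h5

end Pool.Agent.Helper5.PG
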