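import Mathlib
import Pool.Agent.Helper5.Pe.Defs
import Pool.Agent.Helper5.Pe.Ring
import Pool.Agent.Helper5.Pe.CvComm
import Pool.Agent.Helper5.Pe.CvEbd
import Pool.Agent.Helper5.Pe.CvAssoc
import Pool.Agent.Helper5.Pe.CvAdd
import Pool.Agent.Helper5.Pe.Volterra
import Pool.Agent.Helper5.Pe.UuEe

set_option autoImplicit false
open MeasureTheory Set Filter Topology

namespace Pool.Agent.Helper5.PG

theorem class2_alg {A : Type*} [CommRing A] (U K Q c i b b' β ρ0 H G ρ f : A) (hci : c * i = 1)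
    (hβ : β = -(b * i)) (hρ0 : ρ0 = -((b' + b * β) * i))
    (hH : H = K + (b' * β + b * ρ0) * U + b' * ρ0 * (U * U) + β * (U * K) + ρ0 * (U * U * K))
    (hG : G = i * (b * U + b' * (U * U) + U * U * K)) (hQ : Q + G * Q = G)
    (hρ : ρ = -(i * (H - Q * H)))
    (hf : f = c * (U * U) + b * (U * U * U) + b' * (U * U * U * U) + U * U * U * U * K) :
    f + β * (U * f) + ρ0 * (U * (U * f)) + U * (U * (ρ * f)) = c * (U * U) := by
  have h1 : f = U * U * (c + b * U + b' * (U * U) + U * U * K) := by rw [hf]; ring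
  have h2 : i * (c + b * U + b' * (U * U) + U * U * K) = 1 + G := by
    rw [hG]; linear_combination hci
  have h3 : (c + b * U + b' * (U * U) + U * U * K) * (1 + β * U + ρ0 * (U * U))
      = c + U * U * H := by
    have e1 : b + c * β = 0 := by rw [hβ]; linear_combination (-b) * hci
    have e2 : b' + b * β + c * ρ0 = 0 := by rw [hρ0]; linear_combination (-(b' + b * β)) * hci
    rw [hH]
    linear_combination U * e1 + U * U * e2
  have h4 : ρ * (c + b * U + b' * (U * U) + U * U * K) = -H := by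
    rw [hρ]
    linear_combination (-(H - Q * H)) * h2 + H * hQ
  rw [h1]
  linear_combination (U * U) * h3 + (U * U * U * U) * h4

theorem cv_ite (P R : ℝ → ℂ) (t : ℝ) :
    cv (fun r => if 0 < r then P r else 0) (fun s => if 0 < s then R s else 0) t
      = if 0 < t then ∫ s in (0:ℝ)..t, P (t - s) * R s else 0 := by
  unfold cv
  split_ifs with ht
  · refine intervalIntegral.integral_congr_ae ?_
    have h1 : ∀ᵐ s : ℝ, s ≠ t := by
      rw [ae_iff]
      simp
    filter_upwards [h1] with s hs hmem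
    rw [uIoc_of_le ht.le] at hmem
    have h2 : 0 < t - s := by
      have := lt_of_le_of_ne hmem.2 hs
      linarith
    simp [hmem.1, h2, sub_pos.mp h2]
  · push Not at ht
    have : ∫ s in (0:ℝ)..t, (if 0 < t - s then P (t - s) else 0) * (if 0 < s then R s else 0)
        = ∫ s in (0:ℝ)..t, (0:ℂ) := by
      refine intervalIntegral.integral_congr fun s hs => ?_
      rw [uIcc_of_ge ht] at hs
      simp [not_lt.mpr hs.2]
    rw [this]
    simp

theorem uu_eq : uu = fun t => if 0 < t then (fun _ : ℝ => (1:ℂ)) t else 0 := rfl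

theorem cv_uu2 : cv uu uu = fun t => if 0 < t then (fun r : ℝ => (r:ℂ)) t else 0 := by
  funext t
  rw [uu_eq, cv_ite]
  simp

theorem cv_uu3 : cv (cv uu uu) uu = fun t => if 0 < t then (fun r : ℝ => (r:ℂ) ^ 2 / 2) t else 0 := by
  funext t
  rw [cv_uu2, uu_eq, cv_ite]
  have : ∫ s in (0:ℝ)..t, (((t - s : ℝ)) : ℂ) * 1 = (t:ℂ) ^ 2 / 2 := by
    simp only [mul_one]
    rw [intervalIntegral.integral_comp_sub_left (fun x => ((x : ℝ) : ℂ)) t]
    rw [sub_self, sub_zero, intervalIntegral.integral_ofReal, integral_id]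
    push_cast
    ring
  simp only [this]

theorem cv_uu4 : cv (cv (cv uu uu) uu) uu
    = fun t => if 0 < t then (fun r : ℝ => (r:ℂ) ^ 3 / 6) t else 0 := by
  funext t
  rw [cv_uu3, uu_eq, cv_ite]
  have : ∫ s in (0:ℝ)..t, (((t - s : ℝ)) : ℂ) ^ 2 / 2 * 1 = (t:ℂ) ^ 3 / 6 := by
    simp only [mul_one]
    rw [intervalIntegral.integral_comp_sub_left (fun x => ((x : ℝ) : ℂ) ^ 2 / 2) t]
    rw [sub_self, sub_zero]
    have h : ∀ x : ℝ, ((x : ℝ) : ℂ) ^ 2 / 2 = ((x ^ 2 / 2 : ℝ) : ℂ) := fun x => by push_cast; ring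
    simp only [h]
    rw [intervalIntegral.integral_ofReal, intervalIntegral.integral_div, integral_pow]
    push_cast
    ring
  simp only [this]

theorem class2 (C m : ℝ) (k : ℝ → ℂ) (hk : EBd C m k) (c b b' : ℂ) (hc : c ≠ 0) (f : ℝ → ℂ)
    (hf : ∀ t, f t = if 0 < t then c * t + b * (t : ℂ) ^ 2 / 2 + b' * (t : ℂ) ^ 3 / 6 +
      ∫ s in (0:ℝ)..t, ((t - s : ℝ) : ℂ) ^ 3 / 6 * k s else 0) :
    ∃ (C' m' : ℝ) (β ρ0 : ℂ) (ρ : ℝ → ℂ), 0 ≤ C' ∧ 0 ≤ m' ∧ EBd C' m' f ∧ EBd C' m' ρ ∧
      f + β • cv uu f + ρ0 • cv uu (cv uu f) + cv uu (cv uu (cv ρ f)) = c • cv uu uu := by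
  set u : EBs := ⟨uu, 1, 0, uu_ebd⟩ with hu
  set κ : EBs := ⟨k, C, m, hk⟩ with hκ
  set fE : EBs := c • (u * u) + b • (u * u * u) + b' • (u * u * u * u) + u * u * u * u * κ with hfE
  have hfv : fE.1 = f := by
    funext t
    rw [hf t]
    have e2 : (u * u).1 t = if 0 < t then (t:ℂ) else 0 := congrFun cv_uu2 t
    have e3 : (u * u * u).1 t = if 0 < t then (t:ℂ) ^ 2 / 2 else 0 := congrFun cv_uu3 t
    have e4 : (u * u * u * u).1 t = if 0 < t then (t:ℂ) ^ 3 / 6 else 0 := congrFun cv_uu4 t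
    have e5 : (u * u * u * u * κ).1 t = if 0 < t then ∫ s in (0:ℝ)..t,
        ((t - s : ℝ) : ℂ) ^ 3 / 6 * k s else 0 := by
      have hk' : k = fun s => if 0 < s then k s else 0 := by
        funext s
        split_ifs with h
        · rfl
        · exact hk.zero s (not_lt.mp h)
      have : (u * u * u * u * κ).1 t = cv (cv (cv (cv uu uu) uu) uu) k t := rfl
      rw [this, cv_uu4]
      conv_lhs => rw [hk']
      rw [cv_ite]
    have : fE.1 t = c * (u * u).1 t + b * (u * u * u).1 t + b' * (u * u * u * u).1 t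
        + (u * u * u * u * κ).1 t := rfl
    rw [this, e2, e3, e4, e5]
    split_ifs
    · ring
    · ring
  set G : EBs := c⁻¹ • (b • u + b' • (u * u) + u * u * κ) with hG
  obtain ⟨Q, hQ⟩ := EBs.quasi G
  set β : ℂ := -(b * c⁻¹) with hβ
  set ρ0 : ℂ := -((b' + b * β) * c⁻¹) with hρ0
  set H : EBs := κ + (b' * β + b * ρ0) • u + (b' * ρ0) • (u * u) + β • (u * κ)
    + ρ0 • (u * u * κ) with hH
  set ρE : EBs := -(c⁻¹ • (H - Q * H)) with hρE
  have key : fE + β • (u * fE) + ρ0 • (u * (u * fE)) + u * (u * (ρE * fE)) = c • (u * u) := by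
    have inj : Function.Injective (Unitization.inr : EBs → Unitization ℂ EBs) :=
      Unitization.inr_injective
    apply inj
    have S : ∀ (a : ℂ) (x : EBs), ((a • x : EBs) : Unitization ℂ EBs)
        = algebraMap ℂ (Unitization ℂ EBs) a * (x : Unitization ℂ EBs) := by
      intro a x
      rw [Unitization.inr_smul, Algebra.smul_def]
    have M : ∀ (x y : EBs), ((x * y : EBs) : Unitization ℂ EBs)
        = (x : Unitization ℂ EBs) * (y : Unitization ℂ EBs) := fun x y => Unitization.inr_mul _ x y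
    have Ad : ∀ (x y : EBs), ((x + y : EBs) : Unitization ℂ EBs)
        = (x : Unitization ℂ EBs) + (y : Unitization ℂ EBs) := fun x y => Unitization.inr_add _ x y
    have Sb : ∀ (x y : EBs), ((x - y : EBs) : Unitization ℂ EBs)
        = (x : Unitization ℂ EBs) - (y : Unitization ℂ EBs) := fun x y => Unitization.inr_sub _ x y
    have Ng : ∀ (x : EBs), ((-x : EBs) : Unitization ℂ EBs)
        = -(x : Unitization ℂ EBs) := fun x => Unitization.inr_neg _ x
    have := class2_alg (A := Unitization ℂ EBs) (u : Unitization ℂ EBs) κ Q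
      (algebraMap ℂ _ c) (algebraMap ℂ _ c⁻¹) (algebraMap ℂ _ b) (algebraMap ℂ _ b')
      (algebraMap ℂ _ β) (algebraMap ℂ _ ρ0) H G ρE fE
      (by rw [← map_mul, mul_inv_cancel₀ hc, map_one])
      (by rw [hβ]; simp only [map_neg, map_mul])
      (by rw [hρ0]; simp only [map_neg, map_mul, map_add])
      (by rw [hH]; simp only [Ad, S, M, map_add, map_mul])
      (by rw [hG]; simp only [Ad, S, M])
      (by rw [← M, ← Ad, hQ])
      (by rw [hρE]; simp only [Ng, S, Sb, M])
      (by rw [hfE]; simp only [Ad, S, M])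
    simp only [Ad, S, M]
    exact this
  obtain ⟨C', m', hC', h1, h2, -⟩ := EBs.common fE ρE ρE
  refine ⟨C', max m' 0, β, ρ0, ρE.1, hC', le_max_right _ _, ?_, h2.mono le_rfl (le_max_left _ _), ?_⟩
  · rw [← hfv]; exact h1.mono le_rfl (le_max_left _ _)
  · have := congrArg Subtype.val key
    rw [← hfv]
    exact this

end Pool.Agent.Helper5.PG
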