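import Mathlib
import Pool.Agent.Helper5.Pe.Defs
import Pool.Agent.Helper5.Pe.EntDeriv
import Pool.Agent.Helper5.Pe.FunCongr
import Pool.Agent.Helper5.Pg.GenRadical
import Pool.Agent.Helper5.Pg.CpowPw

set_option autoImplicit false
open MeasureTheory Set Filter Topology

namespace Pool.Agent.Helper5.PG

theorem zero_of_exp (w : ℝ → ℝ) (hw : IsWeight w) (hr : IsRadical w) (Φ : (ℝ → ℂ) → ℂ)
    (hΦ : IsFun w Φ) (h0 : ∀ z : ℂ, Φ (fun t : ℝ => Complex.exp (z * t)) = 0) :
    ∀ h, InL1 w h → Φ h = 0 := by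
  -- step 1
  have h1 : ∀ (n : ℕ) (z : ℂ), Φ (fun t : ℝ => (t : ℂ) ^ n * Complex.exp (z * t)) = 0 := by
    intro n
    induction n with
    | zero =>
      intro z
      have : (fun t : ℝ => (t : ℂ) ^ 0 * Complex.exp (z * t)) =
          fun t : ℝ => Complex.exp (z * t) := by
        funext t; simp
      rw [this]; exact h0 z
    | succ n ih =>
      intro z
      have h2 := (ent_deriv w hw hr Φ hΦ n z).2
      have h3 : (fun z : ℂ => Φ (fun t : ℝ => (t : ℂ) ^ n * Complex.exp (z * t))) =
          fun _ => (0 : ℂ) := funext ih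
      rw [h3] at h2
      exact h2.unique (hasDerivAt_const z (0 : ℂ))
  -- step 2
  have h2 : ∀ k : ℕ, InL1 w (cpow (pw 1 0) k) ∧ Φ (cpow (pw 1 0) k) = 0 := by
    intro k
    obtain ⟨C, hC, hCk⟩ := cpow_pw 1 one_pos 0 k
    have hg0 := (ent_deriv w hw hr Φ hΦ k 0).1
    have hg : InL1 w ((C : ℂ) • (fun t : ℝ => (t : ℂ) ^ k * Complex.exp (0 * t))) := by
      have := Integrable.const_mul hg0 (C : ℂ)
      refine this.congr (Filter.Eventually.of_forall fun t => ?_)
      simp only [Pi.smul_apply, smul_eq_mul]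
      ring
    have hPhi : Φ ((C : ℂ) • (fun t : ℝ => (t : ℂ) ^ k * Complex.exp (0 * t))) = 0 := by
      rw [hΦ.smul _ _ hg0, h1 k 0, mul_zero]
    have hc := fun_congr w hw Φ hΦ _ (cpow (pw 1 0) k) hg (by
      intro t ht
      rw [hCk t ht]
      simp only [Pi.smul_apply, smul_eq_mul, pw]
      congr 2
      have h3 : (1 * ((k : ℝ) + 1) - 1) = (k : ℝ) := by ring
      rw [h3, Real.rpow_natCast]
      push_cast
      rfl)
    exact ⟨hc.1, hc.2 ▸ hPhi⟩
  intro h hh
  -- step 3
  have h3 : ∀ (n : ℕ) (c : ℕ → ℂ),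
      InL1 w (fun t => ∑ k ∈ Finset.range n, c k * cpow (pw 1 0) k t) ∧
      Φ (fun t => ∑ k ∈ Finset.range n, c k * cpow (pw 1 0) k t) = 0 := by
    intro n c
    induction n with
    | zero =>
      have e : (fun t : ℝ => ∑ k ∈ Finset.range 0, c k * cpow (pw 1 0) k t) = (0 : ℂ) • h := by
        funext t; simp
      rw [e]
      refine ⟨?_, ?_⟩
      · have := Integrable.const_mul hh (0 : ℂ)
        refine this.congr (Filter.Eventually.of_forall fun t => ?_)
        simp
      · rw [hΦ.smul _ _ hh, zero_mul]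
    | succ n ih =>
      have e : (fun t : ℝ => ∑ k ∈ Finset.range (n + 1), c k * cpow (pw 1 0) k t) =
          (fun t : ℝ => ∑ k ∈ Finset.range n, c k * cpow (pw 1 0) k t) +
            c n • cpow (pw 1 0) n := by
        funext t; simp [Finset.sum_range_succ]
      have hi : InL1 w (c n • cpow (pw 1 0) n) := by
        have := Integrable.const_mul (h2 n).1 (c n)
        refine this.congr (Filter.Eventually.of_forall fun t => ?_)
        simp only [Pi.smul_apply, smul_eq_mul]
        ring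
      rw [e]
      refine ⟨?_, ?_⟩
      · have := Integrable.add ih.1 hi
        refine this.congr (Filter.Eventually.of_forall fun t => ?_)
        simp only [Pi.add_apply]
        ring
      · rw [hΦ.add _ _ ih.1 hi, ih.2, hΦ.smul _ _ (h2 n).1, (h2 n).2]
        simp
  have hlt : ∀ ε : ℝ, 0 < ε → ‖Φ h‖ < ε := by
    intro ε hε
    obtain ⟨n, c, hnc⟩ := (gen_radical w hw hr 1 one_pos one_le_two 0).2 h hh ε hε
    obtain ⟨hP, hP0⟩ := h3 n c
    set P : ℝ → ℂ := fun t => ∑ k ∈ Finset.range n, c k * cpow (pw 1 0) k t with hPdef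
    have hd : InL1 w (h - P) := by
      have := Integrable.sub hh hP
      refine this.congr (Filter.Eventually.of_forall fun t => ?_)
      simp only [Pi.sub_apply]
      ring
    have e : h = (h - P) + P := by
      funext t; simp
    have e2 : Φ h = Φ (h - P) := by
      conv_lhs => rw [e]
      rw [hΦ.add _ _ hd hP, hP0, add_zero]
    rw [e2]
    refine (hΦ.bd _ hd).trans_lt ?_
    have e3 : ∫ t in Ioi (0:ℝ), ‖(h - P) t‖ * w t = ∫ t in Ioi (0:ℝ), ‖(h - P) t * (w t : ℂ)‖ := by
      refine setIntegral_congr_fun measurableSet_Ioi fun t ht => ?_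
      have hwt := hw.pos t (le_of_lt ht)
      rw [norm_mul, Complex.norm_real, Real.norm_eq_abs, abs_of_pos hwt]
    rw [e3, integral_norm_eq_lintegral_enorm hd.aestronglyMeasurable]
    refine ENNReal.toReal_lt_of_lt_ofReal ?_
    refine lt_of_eq_of_lt ?_ hnc
    refine setLIntegral_congr_fun measurableSet_Ioi fun t ht => ?_
    have hwt := hw.pos t (le_of_lt ht)
    rw [← ofReal_norm_eq_enorm, norm_mul, Complex.norm_real, Real.norm_eq_abs, abs_of_pos hwt]
    rfl
  by_contra hne
  have hpos : 0 < ‖Φ h‖ := norm_pos_iff.2 hne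
  exact lt_irrefl _ (hlt _ hpos)

end Pool.Agent.Helper5.PG
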