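import Mathlib
import Pool.Agent.Helper5.Pe.Defs
import Pool.Agent.Helper5.Pe.Ring
import Pool.Agent.Helper5.Pe.CvEbd
import Pool.Agent.Helper5.Pe.Volterra
import Pool.Agent.Helper5.Pe.EeConv
import Pool.Agent.Helper5.Pe.LapCv
import Pool.Agent.Helper5.Pe.LapEe
import Pool.Agent.Helper5.Pe.Alg2
import Pool.Agent.Helper5.Pe.HbFun
import Pool.Agent.Helper5.Pe.ExpInt
import Pool.Agent.Helper5.Pe.Inl1OfEbd
import Pool.Agent.Helper5.Pe.FunCongr
import Pool.Agent.Helper5.Pe.EntDeriv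
import Pool.Agent.Helper5.Pe.EntSmall
import Pool.Agent.Helper5.Pe.ZeroOfExp
import Pool.Agent.Helper5.Pe.SumZero
import Pool.Agent.Helper5.Pe.Liou
import Pool.Agent.Helper5.Pe.CpowEbd

set_option autoImplicit false
open MeasureTheory Set Filter Topology

namespace Pool.Agent.Helper5.PG

theorem m2_lap_int (C m : ℝ) (g : ℝ → ℂ) (hg : EBd C m g) (z : ℂ) (hz : m < z.re) :
    IntegrableOn (fun r : ℝ => Complex.exp (-(z * r)) * g r) (Ioi 0) := by
  have h1 : IntegrableOn (fun r : ℝ => C * Real.exp (-(z.re - m) * r)) (Ioi 0) :=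
    (exp_neg_integrableOn_Ioi 0 (by linarith : 0 < z.re - m)).const_mul C
  refine Integrable.mono' h1 ?_ ?_
  · exact (Measurable.mul (by fun_prop) hg.meas).aestronglyMeasurable
  · refine (ae_restrict_iff' measurableSet_Ioi).2 (Filter.Eventually.of_forall fun r hr => ?_)
    have hr0 : 0 < r := hr
    rw [norm_mul, Complex.norm_exp]
    have h2 := hg.bd r hr0
    have e : (-(z * (r:ℂ))).re = -(z.re * r) := by simp
    rw [e]
    calc Real.exp (-(z.re * r)) * ‖g r‖ ≤ Real.exp (-(z.re * r)) * (C * Real.exp (m * r)) := by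
          gcongr
      _ = C * Real.exp (-(z.re - m) * r) := by
        rw [show -(z.re - m) * r = -(z.re * r) + m * r by ring, Real.exp_add]; ring

theorem m2_cv_smul (f g : ℝ → ℂ) (a : ℂ) : cv f (a • g) = a • cv f g := by
  funext t
  simp only [cv, Pi.smul_apply, smul_eq_mul]
  rw [← intervalIntegral.integral_const_mul]
  congr 1
  funext s
  ring

theorem m2_lap_sub (f g : ℝ → ℂ) (z : ℂ)
    (hf : IntegrableOn (fun r : ℝ => Complex.exp (-(z * r)) * f r) (Ioi 0))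
    (hg : IntegrableOn (fun r : ℝ => Complex.exp (-(z * r)) * g r) (Ioi 0)) :
    lap (f - g) z = lap f z - lap g z := by
  unfold lap
  rw [← integral_sub hf hg]
  congr 1
  funext r
  simp [mul_sub]

theorem m2_sub_ebd {C m D m' : ℝ} {f g : ℝ → ℂ} (hf : EBd C m f) (hg : EBd D m' g) :
    EBd (C + D) (max m m') (f - g) := by
  have h := hf.add (hg.smul (-1))
  have e : f + (-1 : ℂ) • g = f - g := by
    funext t; simp [sub_eq_add_neg]
  rw [e] at h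
  simpa using h

theorem m2_est (w : ℝ → ℝ) (hw : IsWeight w) (hr : IsRadical w) (C m : ℝ) (hC : 0 ≤ C)
    (f ρ : ℝ → ℂ) (hf : EBd C m f) (hρ : EBd C m ρ) (c β ρ0 : ℂ) (hc : c ≠ 0)
    (hrel : f + β • cv uu f + ρ0 • cv uu (cv uu f) + cv uu (cv uu (cv ρ f)) = c • cv uu uu)
    (Φ : (ℝ → ℂ) → ℂ) (hΦ : IsFun w Φ) (hk : ∀ k, Φ (cpow f k) = 0) (M : ℝ) (hmM : m ≤ M)
    (hβM : ‖β‖ ≤ M) (z : ℂ) (hz : M + 3 * C + 4 ≤ z.re) :
    ‖Φ (fun t : ℝ => Complex.exp (z * t))‖ ≤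
      2 * ((2 + ‖β‖) * (1 + ‖z‖)) * ((1 + C) * ∫ t in Ioi (0:ℝ), Real.exp ((M + C + 2) * t) * w t) := by
  have hM0 : 0 ≤ M := (norm_nonneg β).trans hβM
  have hβre : |β.re| ≤ ‖β‖ := Complex.abs_re_le_norm β
  have hβ1 := (abs_le.1 hβre).1
  have hre : (-z - β).re = -z.re - β.re := by simp
  have hem : EBd 1 M (ee (-z - β)) := (ee_ebd (-z - β)).mono le_rfl (by rw [hre]; linarith)
  obtain ⟨hq0, -, hconv⟩ := ee_conv C m hC ρ hρ z (by linarith)
  have hdiv : C / (z.re - m) ≤ C := by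
    apply div_le_self hC; linarith
  have hq : EBd C M (JJ z ρ) := hq0.mono hdiv hmM
  have hp := (cv_ebd 1 C M (by norm_num) hC _ _ hem hq).2
  rw [one_mul] at hp
  obtain ⟨Q, hQ, hQrel⟩ := volterra C (M + 1) hC _ hp
  have hcv : EBd C (M + 1 + C + 1) (cv (ee (-z - β)) Q) := by
    have := (cv_ebd 1 C (M + 1 + C) (by norm_num) hC _ _ (hem.mono le_rfl (by linarith)) hQ).2
    rwa [one_mul] at this
  have hS : EBd (1 + C) (M + C + 2) (ee (-z - β) - cv (ee (-z - β)) Q) := by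
    refine (m2_sub_ebd hem hcv).mono le_rfl ?_
    apply max_le <;> linarith
  have halg := alg2 C (M + 1 + C) f ρ (JJ z ρ) Q (hf.mono le_rfl (by linarith))
    (hρ.mono le_rfl (by linarith)) (hq.mono le_rfl (by linarith)) hQ c β ρ0 (lap ρ z) z hrel hconv hQrel
  obtain ⟨S, hSdef⟩ : ∃ S, S = ee (-z - β) - cv (ee (-z - β)) Q := ⟨_, rfl⟩
  rw [← hSdef] at halg hS
  obtain ⟨X, hXdef⟩ : ∃ X, X = cv (ee z) S := ⟨_, rfl⟩
  rw [← hXdef] at halg
  obtain ⟨hJ0, -, hconvS⟩ := ee_conv (1 + C) (M + C + 2) (by linarith) S hS z (by linarith)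
  have hJ : EBd (1 + C) (M + C + 2) (JJ z S) := by
    refine hJ0.mono ?_ le_rfl
    apply div_le_self (by linarith); linarith
  have hX : EBd (1 + C) (z.re + 1) X := by
    have := (cv_ebd 1 (1 + C) z.re (by norm_num) (by linarith) _ _ (ee_ebd z)
      (hS.mono le_rfl (by linarith))).2
    rw [one_mul, ← hXdef] at this
    exact this
  have hXin := (inl1_of_ebd w hw hr _ _ (by linarith) X hX).1
  have hR := hX.smul c
  have hΦR : Φ (c • X) = 0 := by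
    refine sum_zero w hw hr Φ hΦ C m _ _ f (c • X) hf hR ((z * z + β * z + ρ0 + lap ρ z) / c) ?_ hk
    rw [m2_cv_smul, smul_smul, div_mul_cancel₀ _ hc]
    exact halg
  have hΦX : Φ X = 0 := by
    rw [hΦ.smul c X hXin] at hΦR
    exact (mul_eq_zero.1 hΦR).resolve_left hc
  have heein := (inl1_of_ebd w hw hr _ _ (by norm_num) (ee z) (ee_ebd z)).1
  have heesm := (inl1_of_ebd w hw hr _ _ (by positivity) (lap S z • ee z) ((ee_ebd z).smul (lap S z))).1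
  have hJin := inl1_of_ebd w hw hr _ _ (by linarith) (JJ z S) hJ
  have hΦX2 : Φ X = lap S z * Φ (ee z) + Φ (JJ z S) := by
    rw [hXdef, hconvS, hΦ.add _ _ heesm hJin.1, hΦ.smul _ _ heein]
  have hcongr := (fun_congr w hw Φ hΦ (ee z) (fun t : ℝ => Complex.exp (z * t)) heein
    (fun t ht => by simp [ee, ht])).2
  have hlapQ : ‖lap Q z‖ ≤ 1 / 2 := by
    have h1 := (ee_conv C (M + 1 + C) hC Q hQ z (by linarith)).2.1
    refine h1.trans ?_
    rw [div_le_iff₀ (by linarith)]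
    linarith
  have hlapem : lap (ee (-z - β)) z = 1 / (2 * z + β) := by
    rw [lap_ee (-z - β) z (by rw [hre]; linarith)]
    congr 1; ring
  have hlapS : lap S z = 1 / (2 * z + β) * (1 - lap Q z) := by
    have hemI := m2_lap_int 1 M _ hem z (by linarith)
    have hcvI := m2_lap_int C (M + 1 + C + 1) _ hcv z (by linarith)
    rw [hSdef, m2_lap_sub _ _ _ hemI hcvI,
      lap_cv (1 + C) (M + 1 + C) (by linarith) _ _ (hem.mono (by linarith) (by linarith))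
        (hQ.mono (by linarith) le_rfl) z (by linarith), hlapem]
    ring
  have hre2 : (2 * z + β).re = 2 * z.re + β.re := by simp
  have hne : 2 * z + β ≠ 0 := by
    intro h0
    rw [h0] at hre2
    simp only [Complex.zero_re] at hre2
    linarith
  have hQne : (1:ℝ) / 2 ≤ ‖1 - lap Q z‖ := by
    have h1 : ‖(1:ℂ)‖ - ‖lap Q z‖ ≤ ‖1 - lap Q z‖ := norm_sub_norm_le _ _
    rw [norm_one] at h1
    linarith
  have hkey : (1 - lap Q z) * Φ (ee z) = -((2 * z + β) * Φ (JJ z S)) := by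
    rw [hΦX, hlapS] at hΦX2
    have h2 : 0 = (2 * z + β) * (1 / (2 * z + β) * (1 - lap Q z) * Φ (ee z) + Φ (JJ z S)) := by
      rw [← hΦX2, mul_zero]
    have h3 : (2 * z + β) * (1 / (2 * z + β) * (1 - lap Q z) * Φ (ee z) + Φ (JJ z S))
        = (1 - lap Q z) * Φ (ee z) + (2 * z + β) * Φ (JJ z S) := by
      field_simp
    rw [h3] at h2
    linear_combination -h2
  have hnorm : ‖1 - lap Q z‖ * ‖Φ (ee z)‖ = ‖2 * z + β‖ * ‖Φ (JJ z S)‖ := by
    rw [← norm_mul, hkey, norm_neg, norm_mul]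
  have hΦJ : ‖Φ (JJ z S)‖ ≤ (1 + C) * ∫ t in Ioi (0:ℝ), Real.exp ((M + C + 2) * t) * w t :=
    (hΦ.bd _ hJin.1).trans hJin.2
  have h2z : ‖2 * z + β‖ ≤ (2 + ‖β‖) * (1 + ‖z‖) := by
    have h4 : ‖2 * z + β‖ ≤ ‖2 * z‖ + ‖β‖ := norm_add_le _ _
    have h5 : ‖2 * z‖ = 2 * ‖z‖ := by simp
    have h6 := norm_nonneg z
    have h7 := norm_nonneg β
    nlinarith [mul_nonneg h6 h7]
  rw [← hcongr]
  have h8 : ‖Φ (ee z)‖ ≤ 2 * (‖2 * z + β‖ * ‖Φ (JJ z S)‖) := by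
    have h9 := norm_nonneg (Φ (ee z))
    nlinarith [mul_le_mul_of_nonneg_right hQne h9]
  have hI0 := (norm_nonneg _).trans hΦJ
  calc ‖Φ (ee z)‖ ≤ 2 * (‖2 * z + β‖ * ‖Φ (JJ z S)‖) := h8
    _ ≤ 2 * (((2 + ‖β‖) * (1 + ‖z‖)) * ((1 + C) * ∫ t in Ioi (0:ℝ), Real.exp ((M + C + 2) * t) * w t)) := by
        have h10 : ‖2 * z + β‖ * ‖Φ (JJ z S)‖ ≤ ((2 + ‖β‖) * (1 + ‖z‖)) *
            ((1 + C) * ∫ t in Ioi (0:ℝ), Real.exp ((M + C + 2) * t) * w t) :=
          mul_le_mul h2z hΦJ (norm_nonneg _) (by positivity)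
        linarith
    _ = _ := by ring

theorem main2 (w : ℝ → ℝ) (hw : IsWeight w) (hr : IsRadical w) (C m : ℝ) (hC : 0 ≤ C) (hm : 0 ≤ m)
    (f ρ : ℝ → ℂ) (hf : EBd C m f) (hρ : EBd C m ρ) (c β ρ0 : ℂ) (hc : c ≠ 0)
    (hrel : f + β • cv uu f + ρ0 • cv uu (cv uu f) + cv uu (cv uu (cv ρ f)) = c • cv uu uu) :
    IsPolyGen w f := by
  by_contra hnot
  have hall : ∀ k, InL1 w (cpow f k) := by
    intro k
    obtain ⟨C', m', hC', hb⟩ := cpow_ebd C m f hf k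
    exact (inl1_of_ebd w hw hr C' m' hC' _ hb).1
  obtain ⟨Φ, hΦ, hk, h, hh, hne⟩ := hb_fun w hw f hall hnot
  apply hne
  refine zero_of_exp w hw hr Φ hΦ ?_ h hh
  obtain ⟨hs1, hs2⟩ := ent_small w hw hr Φ hΦ
  obtain ⟨A, hA⟩ : ∃ A : ℝ, A = max m ‖β‖ + 3 * C + 4 := ⟨_, rfl⟩
  obtain ⟨B1, hB1⟩ : ∃ B : ℝ, B = ∫ t in Ioi (0:ℝ), Real.exp (A * t) * w t := ⟨_, rfl⟩
  obtain ⟨B2, hB2⟩ : ∃ B : ℝ, B = 2 * (2 + ‖β‖) * ((1 + C) *
    ∫ t in Ioi (0:ℝ), Real.exp ((max m ‖β‖ + C + 2) * t) * w t) := ⟨_, rfl⟩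
  have hint0 : ∀ a : ℝ, 0 ≤ ∫ t in Ioi (0:ℝ), Real.exp (a * t) * w t := by
    intro a
    refine setIntegral_nonneg measurableSet_Ioi fun t ht => ?_
    exact mul_nonneg (Real.exp_pos _).le (hw.pos t (le_of_lt ht)).le
  have hB10 : 0 ≤ B1 := by rw [hB1]; exact hint0 A
  have hB20 : 0 ≤ B2 := by
    rw [hB2]
    have := hint0 (max m ‖β‖ + C + 2)
    positivity
  refine liou (fun z : ℂ => Φ (fun t : ℝ => Complex.exp (z * t))) ?_ A (B1 + B2) ?_ ?_ hs2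
  · intro z
    have h1 := (ent_deriv w hw hr Φ hΦ 0 z).2
    simp only [pow_zero, one_mul] at h1
    exact h1.differentiableAt
  · intro z hz
    have h1 := hs1 A z hz
    rw [← hB1] at h1
    linarith
  · intro z hz
    have h1 := m2_est w hw hr C m hC f ρ hf hρ c β ρ0 hc hrel Φ hΦ hk (max m ‖β‖)
      (le_max_left _ _) (le_max_right _ _) z (by rw [← hA]; exact hz)
    have h2 : 2 * ((2 + ‖β‖) * (1 + ‖z‖)) * ((1 + C) *
        ∫ t in Ioi (0:ℝ), Real.exp ((max m ‖β‖ + C + 2) * t) * w t) = B2 * (1 + ‖z‖) := by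
      rw [hB2]; ring
    rw [h2] at h1
    have h3 : 0 ≤ B1 * (1 + ‖z‖) := by
      have := norm_nonneg z
      positivity
    calc ‖Φ (fun t : ℝ => Complex.exp (z * t))‖ ≤ B2 * (1 + ‖z‖) := h1
      _ ≤ (B1 + B2) * (1 + ‖z‖) := by linarith

end Pool.Agent.Helper5.PG
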